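import Pool.Agent.KS6_47.PR.Val

/-!
Instances of the packed Ramsey theorem for pairs, and blocks.
-/

set_option autoImplicit false

namespace Pool.Agent.KS6_47.PR

open Encodable Pool.Agent.Helper446 Pool.Agent.Helper446.Defs Pool.Agent.Helper446.RE
  Pool.Agent.Helper446.Oracle Pool.Agent.R623.Dec

/-- An instance: a colouring `c` of the pairs `x < y` and a function `psi`, both computable from
`Z`, an ultrafilter `U` of sets which contain large homogeneous sets, and the colour `j x` which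
almost all pairs `x, y` with `x` fixed have, with respect to the ultrafilter. -/
structure Inst (Z : Set ℕ) (k : ℕ) where
  c : ℕ → ℕ → Fin k
  psi : ℕ → ℕ
  hc : REIn Z fun p : (ℕ × ℕ) × Fin k => c p.1.1 p.1.2 = p.2
  hpsi : REIn Z fun p : ℕ × ℕ => psi p.1 = p.2
  U : Ultrafilter ℕ
  hU : ∀ X ∈ U, ∀ w0, ∃ w, w0 < w ∧ ∃ B : Finset ℕ, (∀ x ∈ B, x ∈ X) ∧ (∀ x ∈ B, x ≤ w) ∧
    psi w ≤ B.card ∧ ∃ i, ∀ x ∈ B, ∀ y ∈ B, x < y → c x y = i
  j : ℕ → Fin k
  hj : ∀ x, {y | c x y = j x} ∈ U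
  hfree : ∀ n, {y | n < y} ∈ U

/-- a block: a bound and a finite set below it -/
abbrev Blk := ℕ × List ℕ

variable {Z : Set ℕ} {k : ℕ} (I : Inst Z k)

/-- the block `b` is homogeneous with colour `i`, and large -/
def Inst.IsBlk (i : Fin k) (b : Blk) : Prop :=
  b.2.Nodup ∧ I.psi b.1 ≤ b.2.length ∧ (∀ x ∈ b.2, x ≤ b.1) ∧
    ∀ x ∈ b.2, ∀ y ∈ b.2, x < y → I.c x y = i

/-- the union of the blocks -/
def el (E : List Blk) : Set ℕ := {x | ∃ b ∈ E, x ∈ b.2}

/-- a finite set of blocks above `t`; the pairs in the same block have the colour `i`, the other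
ones have the colour `j` -/
def Inst.VE (i j : Fin k) (t : ℕ) (E : List Blk) : Prop :=
  (∀ b ∈ E, I.IsBlk i b ∧ t < b.1 ∧ ∀ x ∈ b.2, t < x) ∧
  (∀ b ∈ E, ∀ b' ∈ E, b.1 < b'.1 → ∀ y ∈ b'.2, b.1 < y ∧ ∀ x ∈ b.2, I.c x y = j) ∧
  ∀ b ∈ E, ∀ b' ∈ E, b.1 = b'.1 → b = b'

/-- the reservoir -/
def Inst.Rt (t y : ℕ) : Prop := t < y ∧ ∀ x : Fin (t + 1), I.c x y = I.j x

theorem el_nil : el [] = ∅ := by
  ext x
  simp [el]

theorem el_append (E F : List Blk) : el (E ++ F) = el E ∪ el F := by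
  ext x
  constructor
  · rintro ⟨b, hb, hx⟩
    rcases List.mem_append.1 hb with h | h
    exacts [Or.inl ⟨b, h, hx⟩, Or.inr ⟨b, h, hx⟩]
  · rintro (⟨b, hb, hx⟩ | ⟨b, hb, hx⟩)
    exacts [⟨b, List.mem_append_left _ hb, hx⟩, ⟨b, List.mem_append_right _ hb, hx⟩]

theorem el_single (b : Blk) : el [b] = {x | x ∈ b.2} := by
  ext x
  simp [el]

theorem Inst.VE_nil (i j : Fin k) (t : ℕ) : I.VE i j t [] :=
  ⟨fun b hb => by simp at hb, fun b hb => by simp at hb, fun b hb => by simp at hb⟩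

theorem Inst.VE_single {i j : Fin k} {t : ℕ} {b : Blk} (h : I.IsBlk i b) (h1 : t < b.1)
    (h2 : ∀ x ∈ b.2, t < x) : I.VE i j t [b] := by
  refine ⟨fun b' hb => ?_, fun b' hb b'' hb' hlt => ?_, fun b' hb b'' hb' _ => ?_⟩
  · rw [List.mem_singleton] at hb; subst hb
    exact ⟨h, h1, h2⟩
  · rw [List.mem_singleton] at hb hb'; subst hb hb'
    exact absurd hlt (lt_irrefl _)
  · rw [List.mem_singleton] at hb hb'; subst hb hb'
    rfl

theorem Inst.Rt_mono {t t' y : ℕ} (h : t ≤ t') (hy : I.Rt t' y) : I.Rt t y :=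
  ⟨lt_of_le_of_lt h hy.1, fun x => hy.2 ⟨x.1, by omega⟩⟩

theorem Inst.Rt_col {t x y : ℕ} (h : x ≤ t) (hy : I.Rt t y) : I.c x y = I.j x :=
  hy.2 ⟨x, by omega⟩

theorem Inst.VE_append {i j : Fin k} {t t' : ℕ} {E E' : List Blk} (hE : I.VE i j t E)
    (ht : t ≤ t') (hb : ∀ b ∈ E, b.1 ≤ t' ∧ ∀ x ∈ b.2, x ≤ t' ∧ I.j x = j)
    (hE' : I.VE i j t' E') (hR : ∀ x ∈ el E', I.Rt t' x) : I.VE i j t (E ++ E') := by
  refine ⟨fun b hb' => ?_, fun b hb1 b' hb2 hlt y hy => ?_, fun b hb1 b' hb2 he => ?_⟩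
  · rcases List.mem_append.1 hb' with h | h
    · exact hE.1 b h
    · obtain ⟨h1, h2, h3⟩ := hE'.1 b h
      exact ⟨h1, by omega, fun x hx => lt_of_le_of_lt ht (h3 x hx)⟩
  · rcases List.mem_append.1 hb1 with h1 | h1 <;> rcases List.mem_append.1 hb2 with h2 | h2
    · exact hE.2.1 b h1 b' h2 hlt y hy
    · have h3 := hR y ⟨b', h2, hy⟩
      refine ⟨lt_of_le_of_lt (hb b h1).1 h3.1, fun x hx => ?_⟩
      rw [I.Rt_col ((hb b h1).2 x hx).1 h3, ((hb b h1).2 x hx).2]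
    · exact absurd hlt (by have := (hE'.1 b h1).2.1; have := (hb b' h2).1; omega)
    · exact hE'.2.1 b h1 b' h2 hlt y hy
  · rcases List.mem_append.1 hb1 with h1 | h1 <;> rcases List.mem_append.1 hb2 with h2 | h2
    · exact hE.2.2 b h1 b' h2 he
    · exact absurd he (by have := (hE'.1 b' h2).2.1; have := (hb b h1).1; omega)
    · exact absurd he (by have := (hE'.1 b h1).2.1; have := (hb b' h2).1; omega)
    · exact hE'.2.2 b h1 b' h2 he

theorem Inst.re_isBlk (i : Fin k) : REIn Z fun b : Blk => I.IsBlk i b := by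
  refine REIn.and (REIn.of_re (RE.cp_nodup (by fun_prop))) (REIn.and ?_ (REIn.and ?_ ?_))
  · have h : REIn Z fun b : Blk => ∃ v : ℕ, I.psi b.1 = v ∧ v ≤ b.2.length := by
      refine REIn.ex (S := fun (b : Blk) (v : ℕ) => I.psi b.1 = v ∧ v ≤ b.2.length) ?_
      refine REIn.and (I.hpsi.comp (f := fun x : Blk × ℕ => (x.1.1, x.2)) (by fun_prop)) ?_
      exact REIn.of_re (RE.le (by fun_prop) (by fun_prop))
    refine h.of_eq fun b => ?_
    constructor
    · rintro ⟨v, rfl, h⟩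
      exact h
    · intro h
      exact ⟨_, rfl, h⟩
  · exact REIn.all_mem (S := fun (b : Blk) (x : ℕ) => x ≤ b.1)
      (REIn.of_re (RE.le (by fun_prop) (by fun_prop))) (by fun_prop)
  · refine REIn.all_mem (S := fun (b : Blk) (x : ℕ) => ∀ y ∈ b.2, x < y → I.c x y = i) ?_
      (by fun_prop)
    refine REIn.all_mem (S := fun (z : Blk × ℕ) (y : ℕ) => z.2 < y → I.c z.2 y = i)
      (l := fun z => z.1.2) ?_ (by fun_prop)
    have h : REIn Z fun z : (Blk × ℕ) × ℕ => z.2 ≤ z.1.2 ∨ I.c z.1.2 z.2 = i := by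
      refine REIn.or (REIn.of_re (RE.le (by fun_prop) (by fun_prop))) ?_
      exact I.hc.comp (f := fun z : (Blk × ℕ) × ℕ => ((z.1.2, z.2), i)) (by fun_prop)
    refine h.of_eq fun z => ?_
    constructor
    · rintro (h | h) h'
      · omega
      · exact h
    · intro h
      by_cases h' : z.2 ≤ z.1.2
      · exact Or.inl h'
      · exact Or.inr (h (by omega))

theorem Inst.re_VE (i j : Fin k) (t : ℕ) : REIn Z fun E : List Blk => I.VE i j t E := by
  refine REIn.and ?_ (REIn.and ?_ ?_)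
  · refine REIn.all_mem (S := fun (_ : List Blk) (b : Blk) => I.IsBlk i b ∧ t < b.1 ∧
      ∀ x ∈ b.2, t < x) ?_ (by fun_prop)
    refine REIn.and ((I.re_isBlk i).comp (f := fun x : List Blk × Blk => x.2) (by fun_prop))
      (REIn.and (REIn.of_re (RE.lt (by fun_prop) (by fun_prop))) ?_)
    exact REIn.all_mem (S := fun (_ : List Blk × Blk) (x : ℕ) => t < x) (l := fun z => z.2.2)
      (REIn.of_re (RE.lt (by fun_prop) (by fun_prop))) (by fun_prop)
  · refine REIn.all_mem (S := fun (E : List Blk) (b : Blk) => ∀ b' ∈ E, b.1 < b'.1 →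
      ∀ y ∈ b'.2, b.1 < y ∧ ∀ x ∈ b.2, I.c x y = j) ?_ (by fun_prop)
    refine REIn.all_mem (S := fun (z : List Blk × Blk) (b' : Blk) => z.2.1 < b'.1 →
      ∀ y ∈ b'.2, z.2.1 < y ∧ ∀ x ∈ z.2.2, I.c x y = j) (l := fun z => z.1) ?_ (by fun_prop)
    have h : REIn Z fun z : (List Blk × Blk) × Blk => z.2.1 ≤ z.1.2.1 ∨
        ∀ y ∈ z.2.2, z.1.2.1 < y ∧ ∀ x ∈ z.1.2.2, I.c x y = j := by
      refine REIn.or (REIn.of_re (RE.le (by fun_prop) (by fun_prop))) ?_
      refine REIn.all_mem (S := fun (z : (List Blk × Blk) × Blk) (y : ℕ) =>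
        z.1.2.1 < y ∧ ∀ x ∈ z.1.2.2, I.c x y = j) (l := fun z => z.2.2) ?_ (by fun_prop)
      refine REIn.and (REIn.of_re (RE.lt (by fun_prop) (by fun_prop))) ?_
      refine REIn.all_mem (S := fun (z : ((List Blk × Blk) × Blk) × ℕ) (x : ℕ) =>
        I.c x z.2 = j) (l := fun z => z.1.1.2.2) ?_ (by fun_prop)
      exact I.hc.comp (f := fun z : (((List Blk × Blk) × Blk) × ℕ) × ℕ => ((z.2, z.1.2), j))
        (by fun_prop)
    refine h.of_eq fun z => ?_
    constructor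
    · rintro (h | h) h'
      · omega
      · exact h
    · intro h
      by_cases h' : z.2.1 ≤ z.1.2.1
      · exact Or.inl h'
      · exact Or.inr (h (by omega))
  · refine REIn.all_mem (S := fun (E : List Blk) (b : Blk) => ∀ b' ∈ E, b.1 = b'.1 → b = b') ?_
      (by fun_prop)
    refine REIn.all_mem (S := fun (z : List Blk × Blk) (b' : Blk) => z.2.1 = b'.1 → z.2 = b')
      (l := fun z => z.1) ?_ (by fun_prop)
    have h : REIn Z fun z : (List Blk × Blk) × Blk => z.1.2.1 ≠ z.2.1 ∨ z.1.2 = z.2 :=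
      REIn.or (REIn.of_re (RE.ne (by fun_prop) (by fun_prop)))
        (REIn.of_re (RE.eq (by fun_prop) (by fun_prop)))
    refine h.of_eq fun z => ?_
    constructor
    · rintro (h | h) h'
      · exact absurd h' h
      · exact h
    · intro h
      by_cases h' : z.1.2.1 = z.2.1
      · exact Or.inr (h h')
      · exact Or.inl h'

theorem Inst.re_Rt (t : ℕ) : R2 Z fun (y : ℕ) (_ : Set ℕ) => I.Rt t y := by
  refine R2.and (R2.of_re (REIn.of_re (RE.lt (by fun_prop) (by fun_prop)))) ?_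
  refine R2.all_fin (P := fun (x : Fin (t + 1)) (y : ℕ) (_ : Set ℕ) => I.c x y = I.j x) fun x => ?_
  exact R2.of_re (I.hc.comp (f := fun y : ℕ => (((x : ℕ), y), I.j x)) (by fun_prop))

theorem Inst.Rt_mem (t : ℕ) : {y | I.Rt t y} ∈ I.U := by
  have h1 : {y | t < y} ∩ ⋂ x : Fin (t + 1), {y | I.c x y = I.j x} ∈ I.U :=
    Filter.inter_mem (I.hfree t) (Filter.iInter_mem.2 fun x => I.hj x)
  refine Filter.mem_of_superset h1 ?_
  rintro y ⟨h2, h3⟩
  exact ⟨h2, fun x => Set.mem_iInter.1 h3 x⟩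

end Pool.Agent.KS6_47.PR
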