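import Pool.Agent.KS6_47.PR.Blk

/-!
The forcing conditions.
-/

set_option autoImplicit false

namespace Pool.Agent.KS6_47.PR

open Encodable Pool.Agent.Helper446 Pool.Agent.Helper446.Defs Pool.Agent.Helper446.RE
  Pool.Agent.Helper446.Oracle Pool.Agent.R623.Dec

variable {Z : Set ℕ} {k : ℕ} {I : Inst Z k} {ι ι' ι'' : Type}

/-- A condition: a bound `t`, a nonempty `Π⁰₁` class `C` of codes of covers `(X ν)` of the
natural numbers, and for every part `ν` and every side a finite set of blocks. -/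
structure Cond (I : Inst Z k) (ι : Type) where
  t : ℕ
  C : Set (Set ℕ)
  X : ι → Set ℕ → Set ℕ
  F : ι → Fin k × Fin k → List Blk
  hC : R2 Z fun (_ : List (ℕ × Bool)) Y => Y ∉ C
  hne : C.Nonempty
  hX : ∀ ν, CF Z (X ν)
  hcov : ∀ Y ∈ C, ∀ x, ∃ ν, x ∈ X ν Y
  hF : ∀ ν σ, ∀ b ∈ F ν σ, b.1 ≤ t ∧ ∀ x ∈ b.2, x ≤ t ∧ I.j x = σ.2

/-- the part `μ'` of the condition `c'` extends the part `μ` of the condition `c` -/
def Ext (c' : Cond I ι') (μ' : ι') (c : Cond I ι) (μ : ι) : Prop :=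
  c.t ≤ c'.t ∧ ∀ Y' ∈ c'.C, ∃ Y ∈ c.C, c'.X μ' Y' ⊆ c.X μ Y ∧ ∀ σ : Fin k × Fin k, ∃ E : List Blk,
    c'.F μ' σ = c.F μ σ ++ E ∧ I.VE σ.1 σ.2 c.t E ∧
    ∀ x ∈ el E, x ∈ c.X μ Y ∧ I.Rt c.t x ∧ I.j x = σ.2

theorem Ext.refl (c : Cond I ι) (μ : ι) : Ext c μ c μ := by
  refine ⟨le_refl _, fun Y hY => ⟨Y, hY, subset_refl _, fun σ => ⟨[], ?_, I.VE_nil _ _ _, ?_⟩⟩⟩
  · rw [List.append_nil]
  · rw [el_nil]
    intro x hx
    exact absurd hx (Set.notMem_empty x)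

theorem Ext.trans {c'' : Cond I ι''} {μ'' : ι''} {c' : Cond I ι'} {μ' : ι'} {c : Cond I ι} {μ : ι}
    (h2 : Ext c'' μ'' c' μ') (h1 : Ext c' μ' c μ) : Ext c'' μ'' c μ := by
  refine ⟨h1.1.trans h2.1, fun Y'' hY'' => ?_⟩
  obtain ⟨Y', hY', hs2, hE2⟩ := h2.2 Y'' hY''
  obtain ⟨Y, hY, hs1, hE1⟩ := h1.2 Y' hY'
  refine ⟨Y, hY, hs2.trans hs1, fun σ => ?_⟩
  obtain ⟨E, hF, hV, hel⟩ := hE1 σ
  obtain ⟨E', hF', hV', hel'⟩ := hE2 σ
  refine ⟨E ++ E', by rw [hF', hF, List.append_assoc], ?_, ?_⟩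
  · refine I.VE_append hV h1.1 (fun b hb => ?_) hV' fun x hx => (hel' x hx).2.1
    exact c'.hF μ' σ b (by rw [hF]; exact List.mem_append_right _ hb)
  · rw [el_append]
    rintro x (hx | hx)
    · exact hel x hx
    · obtain ⟨h3, h4, h5⟩ := hel' x hx
      exact ⟨hs1 h3, I.Rt_mono h1.1 h4, h5⟩

/-- the number of blocks -/
def cnt (F : List Blk) : ℕ := (F.map Prod.fst).toFinset.card

theorem cnt_append (F E : List Blk) : cnt F ≤ cnt (F ++ E) := by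
  unfold cnt
  refine Finset.card_le_card ?_
  intro x hx
  rw [List.mem_toFinset] at hx ⊢
  rw [List.map_append]
  exact List.mem_append_left _ hx

theorem cnt_append_single {F : List Blk} {b : Blk} (h : ∀ b' ∈ F, b'.1 < b.1) :
    cnt (F ++ [b]) = cnt F + 1 := by
  classical
  unfold cnt
  rw [List.map_append, List.toFinset_append, List.map_singleton, Finset.card_union_of_disjoint]
  · simp
  · rw [Finset.disjoint_left]
    intro x hx hx'
    rw [List.mem_toFinset] at hx hx'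
    rw [List.mem_singleton] at hx'
    obtain ⟨b', hb', rfl⟩ := List.mem_map.1 hx
    have := h b' hb'
    omega

/-- a requirement: for every side a number of blocks and an enumeration operator -/
structure Rq (Z : Set ℕ) (k : ℕ) where
  n : Fin k × Fin k → ℕ
  Γ : Fin k × Fin k → ℕ × Bool → Info → Prop
  hΓ : ∀ σ, REIn Z fun x : (ℕ × Bool) × Info => Γ σ x.1 x.2

/-- the operator `Γ` with the set `G` gives the value `b` at `n` -/
def Val (Γ : ℕ × Bool → Info → Prop) (G : Set ℕ) (n : ℕ) (b : Bool) : Prop :=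
  ∃ d, Γ (n, b) d ∧ Ok G d

/-- the operator with the blocks `F` agrees at some argument with the diagonal function -/
def Hit (Γ : ℕ × Bool → Info → Prop) (F : List Blk) (t : ℕ) : Prop :=
  ∃ n b d, D n b ∧ Γ (n, b) d ∧ Ok (el F) d ∧ ∀ x ∈ d.2, x ≤ t

/-- the requirement is met, first case -/
def Done (q : Rq Z k) (c : Cond I ι) (ν : ι) : Prop :=
  ∃ σ, q.n σ ≤ cnt (c.F ν σ) ∧ Hit (q.Γ σ) (c.F ν σ) c.t

/-- no blocks for the side `σ` in the part `ν` -/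
def Dead (c : Cond I ι) (ν : ι) (σ : Fin k × Fin k) : Prop :=
  ∀ Y ∈ c.C, ∀ b, I.IsBlk σ.1 b → c.t < b.1 → (∀ x ∈ b.2, x ∈ c.X ν Y ∧ I.Rt c.t x) →
    ¬ ∀ x ∈ b.2, I.j x = σ.2

/-- the requirement is met -/
def Sat (q : Rq Z k) (c : Cond I ι) (μ : ι) : Prop :=
  Done q c μ ∨
  (∃ σ, q.n σ ≤ cnt (c.F μ σ) ∧ ∃ n, ∀ Y ∈ c.C, ∀ E, I.VE σ.1 σ.2 c.t E →
    (∀ x ∈ el E, x ∈ c.X μ Y ∧ I.Rt c.t x) → ∀ b, ¬ Val (q.Γ σ) (el (c.F μ σ ++ E)) n b) ∨
  ∀ Y ∈ c.C, ∀ i b, I.IsBlk i b → c.t < b.1 → ¬ ∀ x ∈ b.2, x ∈ c.X μ Y ∧ I.Rt c.t x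

theorem Hit.mono {Γ : ℕ × Bool → Info → Prop} {F E : List Blk} {t t' : ℕ} (h : Hit Γ F t)
    (ht : t ≤ t') (hE : ∀ x ∈ el E, t < x) : Hit Γ (F ++ E) t' := by
  obtain ⟨n, b, d, h1, h2, h3, h4⟩ := h
  refine ⟨n, b, d, h1, h2, ⟨fun x hx => ?_, fun x hx hx' => ?_⟩, fun x hx => (h4 x hx).trans ht⟩
  · rw [el_append]
    exact Or.inl (h3.1 x hx)
  · rw [el_append] at hx'
    rcases hx' with h' | h'
    · exact h3.2 x hx h'
    · have := hE x h'
      have := h4 x hx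
      omega

theorem Done.mono {q : Rq Z k} {c' : Cond I ι'} {μ' : ι'} {c : Cond I ι} {μ : ι}
    (h : Ext c' μ' c μ) (hd : Done q c μ) : Done q c' μ' := by
  obtain ⟨σ, h1, h2⟩ := hd
  obtain ⟨Y', hY'⟩ := c'.hne
  obtain ⟨Y, hY, _, hE⟩ := h.2 Y' hY'
  obtain ⟨E, hF, _, hel⟩ := hE σ
  refine ⟨σ, ?_, ?_⟩
  · rw [hF]
    exact h1.trans (cnt_append _ _)
  · rw [hF]
    exact h2.mono h.1 fun x hx => (hel x hx).2.1.1

theorem Ext.cnt_le {c' : Cond I ι'} {μ' : ι'} {c : Cond I ι} {μ : ι}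
    (h : Ext c' μ' c μ) (σ : Fin k × Fin k) : cnt (c.F μ σ) ≤ cnt (c'.F μ' σ) := by
  obtain ⟨Y', hY'⟩ := c'.hne
  obtain ⟨Y, hY, _, hE⟩ := h.2 Y' hY'
  obtain ⟨E, hF, _, hel⟩ := hE σ
  rw [hF]
  exact cnt_append _ _

open Classical in
/-- the measure of what is left to do -/
noncomputable def meas [Fintype ι] (q : Rq Z k) (c : Cond I ι) : ℕ :=
  (∑ ν : ι, ∑ σ : Fin k × Fin k, (q.n σ - cnt (c.F ν σ))) +
    ∑ ν : ι, if Done q c ν then 0 else 1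

/-- extension without splitting -/
def Ext0 (c' c : Cond I ι) : Prop := ∀ ν, Ext c' ν c ν

theorem exists_min [Fintype ι] (q : Rq Z k) (c : Cond I ι) : ∃ c' : Cond I ι, Ext0 c' c ∧
    ∀ c'', Ext0 c'' c' → meas q c' ≤ meas q c'' := by
  have h1 : ∃ n, ∃ c' : Cond I ι, Ext0 c' c ∧ meas q c' = n :=
    ⟨_, c, fun ν => Ext.refl c ν, rfl⟩
  classical
  obtain ⟨c', h2, h3⟩ := Nat.find_spec h1
  refine ⟨c', h2, fun c'' h4 => ?_⟩
  rw [h3]
  exact Nat.find_min' h1 ⟨c'', fun ν => (h4 ν).trans (h2 ν), rfl⟩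

theorem meas_le [Fintype ι] {q : Rq Z k} {c' c : Cond I ι} (h : Ext0 c' c) :
    meas q c' ≤ meas q c := by
  classical
  unfold meas
  refine Nat.add_le_add ?_ ?_
  · refine Finset.sum_le_sum fun ν _ => Finset.sum_le_sum fun σ _ => ?_
    have := (h ν).cnt_le σ
    omega
  · refine Finset.sum_le_sum fun ν _ => ?_
    by_cases h1 : Done q c ν
    · rw [if_pos h1, if_pos (h1.mono (h ν))]
    · rw [if_neg h1]
      split_ifs <;> omega

theorem meas_lt_done [Fintype ι] {q : Rq Z k} {c' c : Cond I ι} (h : Ext0 c' c) {ν : ι}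
    (h1 : ¬ Done q c ν) (h2 : Done q c' ν) : meas q c' < meas q c := by
  classical
  unfold meas
  refine Nat.add_lt_add_of_le_of_lt ?_ ?_
  · refine Finset.sum_le_sum fun ν _ => Finset.sum_le_sum fun σ _ => ?_
    have := (h ν).cnt_le σ
    omega
  · refine Finset.sum_lt_sum (fun ν _ => ?_) ⟨ν, Finset.mem_univ _, ?_⟩
    · by_cases h1 : Done q c ν
      · rw [if_pos h1, if_pos (h1.mono (h ν))]
      · rw [if_neg h1]
        split_ifs <;> omega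
    · rw [if_neg h1, if_pos h2]
      omega

theorem meas_lt_cnt [Fintype ι] {q : Rq Z k} {c' c : Cond I ι} (h : Ext0 c' c) {ν : ι}
    {σ : Fin k × Fin k} (h1 : cnt (c.F ν σ) < q.n σ) (h2 : cnt (c.F ν σ) < cnt (c'.F ν σ)) :
    meas q c' < meas q c := by
  classical
  unfold meas
  refine Nat.add_lt_add_of_lt_of_le ?_ ?_
  · refine Finset.sum_lt_sum (fun ν _ => Finset.sum_le_sum fun σ _ => ?_)
      ⟨ν, Finset.mem_univ _, Finset.sum_lt_sum (fun σ _ => ?_) ⟨σ, Finset.mem_univ _, ?_⟩⟩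
    · have := (h ν).cnt_le σ
      omega
    · have := (h ν).cnt_le σ
      omega
    · omega
  · refine Finset.sum_le_sum fun ν _ => ?_
    by_cases h1 : Done q c ν
    · rw [if_pos h1, if_pos (h1.mono (h ν))]
    · rw [if_neg h1]
      split_ifs <;> omega

open Classical in
/-- **Adding blocks to one side of one part.** -/
theorem exists_addB (c : Cond I ι) (ν : ι) (σ : Fin k × Fin k) (E : List Blk) {Y : Set ℕ}
    (hY : Y ∈ c.C) (hE : I.VE σ.1 σ.2 c.t E)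
    (hel : ∀ x ∈ el E, x ∈ c.X ν Y ∧ I.Rt c.t x ∧ I.j x = σ.2) {T : ℕ} (hT : c.t ≤ T)
    (hT' : ∀ b ∈ E, b.1 ≤ T ∧ ∀ x ∈ b.2, x ≤ T) : ∃ c' : Cond I ι, c'.t = T ∧ Ext0 c' c ∧
      c'.F ν σ = c.F ν σ ++ E := by
  let F' : ι → Fin k × Fin k → List Blk := fun ν' σ' =>
    if ν' = ν ∧ σ' = σ then c.F ν' σ' ++ E else c.F ν' σ'
  have hC' : R2 Z fun (_ : List (ℕ × Bool)) Y => Y ∉ {Y ∈ c.C | ∀ x ∈ el E, x ∈ c.X ν Y} := by
    have h1 : R2 Z fun (_ : List (ℕ × Bool)) Y => Y ∉ c.C ∨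
        ∃ x ∈ E.flatMap Prod.snd, x ∉ c.X ν Y := by
      refine R2.or c.hC ?_
      refine R2.ex_mem (S := fun (_ : List (ℕ × Bool)) (x : ℕ) Y => x ∉ c.X ν Y) ?_
        (Computable.const _)
      exact (c.hX ν).2.comp (f := fun x : List (ℕ × Bool) × ℕ => x.2) (by fun_prop)
    refine h1.of_eq fun _ Y => ?_
    have h2 : ∀ x, x ∈ E.flatMap Prod.snd ↔ x ∈ el E := by
      intro x
      rw [List.mem_flatMap]
      rfl
    simp only [h2, Set.mem_ofPred_eq, not_and_or, not_forall, exists_prop]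
  refine ⟨⟨T, {Y ∈ c.C | ∀ x ∈ el E, x ∈ c.X ν Y}, c.X, F', hC', ⟨Y, hY, fun x hx => (hel x hx).1⟩,
    c.hX, fun Y hY => c.hcov Y hY.1, fun ν' σ' b hb => ?_⟩, rfl, fun ν' => ⟨hT, fun Y' hY' =>
      ⟨Y', hY'.1, subset_refl _, fun σ' => ?_⟩⟩, ?_⟩
  · have hold : b ∈ c.F ν' σ' → b.1 ≤ T ∧ ∀ x ∈ b.2, x ≤ T ∧ I.j x = σ'.2 := by
      intro h
      obtain ⟨h1, h2⟩ := c.hF ν' σ' b h
      exact ⟨h1.trans hT, fun x hx => ⟨(h2 x hx).1.trans hT, (h2 x hx).2⟩⟩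
    simp only [F'] at hb
    split_ifs at hb with h
    · rcases List.mem_append.1 hb with hb | hb
      · exact hold hb
      · refine ⟨(hT' b hb).1, fun x hx => ⟨(hT' b hb).2 x hx, ?_⟩⟩
        rw [h.2]
        exact (hel x ⟨b, hb, hx⟩).2.2
    · exact hold hb
  · by_cases h : ν' = ν ∧ σ' = σ
    · refine ⟨E, by simp only [F', if_pos h], by rw [h.2]; exact hE, fun x hx => ?_⟩
      rw [h.1, h.2]
      exact ⟨hY'.2 x hx, (hel x hx).2⟩
    · refine ⟨[], by simp only [F', if_neg h, List.append_nil], I.VE_nil _ _ _, fun x hx => ?_⟩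
      rw [el_nil] at hx
      exact absurd hx (Set.notMem_empty x)
  · show F' ν σ = _
    simp only [F', and_self, if_true]

/-- In a minimal condition, a side which has not enough blocks is dead. -/
theorem dead_of_min [Fintype ι] {q : Rq Z k} {c : Cond I ι}
    (hmin : ∀ c', Ext0 c' c → meas q c ≤ meas q c') (ν : ι) (σ : Fin k × Fin k) :
    q.n σ ≤ cnt (c.F ν σ) ∨ Dead c ν σ := by
  by_contra hcon
  rw [not_or] at hcon
  obtain ⟨h1, h2⟩ := hcon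
  unfold Dead at h2
  push Not at h2
  obtain ⟨Y, hY, b, hb, htb, hX, hj⟩ := h2
  obtain ⟨c', h3, h4, h5⟩ := exists_addB c ν σ [b] hY
    (I.VE_single hb htb fun x hx => (hX x hx).2.1) (T := b.1) (fun x hx => by
      rw [el_single] at hx
      exact ⟨(hX x hx).1, (hX x hx).2, hj x hx⟩) htb.le (fun b' hb' => by
      rw [List.mem_singleton] at hb'; subst hb'
      exact ⟨le_refl _, fun x hx => hb.2.2.1 x hx⟩)
  have h6 : cnt (c'.F ν σ) = cnt (c.F ν σ) + 1 := by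
    rw [h5]
    exact cnt_append_single fun b' hb' => lt_of_le_of_lt (c.hF ν σ b' hb').1 htb
  have h7 := hmin c' h4
  have h8 := meas_lt_cnt (q := q) h4 (ν := ν) (σ := σ) (by omega) (by omega)
  omega

end Pool.Agent.KS6_47.PR
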