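import Pool.Agent.KS6_47.PR.Ram

/-!
Iteration, and an infinite binary tree all whose paths avoid the diagonal function.
-/

set_option autoImplicit false

namespace Pool.Agent.KS6_47.PR

open Encodable Pool.Agent.Helper446 Pool.Agent.Helper446.Defs Pool.Agent.Helper446.RE
  Pool.Agent.Helper446.Oracle Pool.Agent.R623.Dec

/-- the sets which are enumerable in `Z` -/
def en (Z : Set ℕ) (e : ℕ) : Set ℕ :=
  {n | ∃ d : Info, (∃ s, wst (ℕ × Info) e s (n, d) = true) ∧ Ok Z d}

theorem exists_en {Z A : Set ℕ} (h : Le A Z) : ∃ e, A = en Z e := by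
  obtain ⟨R, hR, h1⟩ := h.1
  obtain ⟨e, he⟩ := wst_univ hR
  refine ⟨e, Set.ext fun n => ?_⟩
  refine (h1 n).trans ?_
  exact exists_congr fun d => and_congr_left fun _ => he (n, d)

/-- **Iteration.** -/
theorem iterate {G : Set ℕ → Prop} {P : Set ℕ → Set ℕ → ℕ → Set ℕ → Prop} {Z0 : Set ℕ} (h0 : G Z0)
    (hstep : ∀ Z, G Z → ∀ A B k, Le A Z → Le B Z → ∃ Z', G Z' ∧ Le Z Z' ∧ P A B k Z') :
    ∃ W : ℕ → Set ℕ, W 0 = Z0 ∧ (∀ n, G (W n)) ∧ (∀ m n, m ≤ n → Le (W m) (W n)) ∧
      ∀ n A B k, Le A (W n) → Le B (W n) → ∃ m, P A B k (W m) := by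
  classical
  have hstep' : ∀ (Z : {Z // G Z}) (A B : Set ℕ) (k : ℕ), ∃ Z' : {Z // G Z}, Le Z.1 Z'.1 ∧
      (Le A Z.1 → Le B Z.1 → P A B k Z'.1) := by
    intro Z A B k
    by_cases h : Le A Z.1 ∧ Le B Z.1
    · obtain ⟨Z', h1, h2, h3⟩ := hstep Z.1 Z.2 A B k h.1 h.2
      exact ⟨⟨Z', h1⟩, h2, fun _ _ => h3⟩
    · exact ⟨Z, Le.refl _, fun h1 h2 => absurd ⟨h1, h2⟩ h⟩
  choose nx hnx1 hnx2 using hstep'
  let st : ℕ → ℕ → {Z // G Z} := fun n => Nat.rec (motive := fun _ => ℕ → {Z // G Z})
    (fun _ => ⟨Z0, h0⟩) (fun n r i => if i ≤ n then r i else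
      nx (r n) (en (r n.unpair.1).1 n.unpair.2.unpair.1)
        (en (r n.unpair.1).1 n.unpair.2.unpair.2.unpair.1) n.unpair.2.unpair.2.unpair.2) n
  have hst : ∀ n i, st (n + 1) i = if i ≤ n then st n i else
      nx (st n n) (en (st n n.unpair.1).1 n.unpair.2.unpair.1)
        (en (st n n.unpair.1).1 n.unpair.2.unpair.2.unpair.1) n.unpair.2.unpair.2.unpair.2 :=
    fun n i => rfl
  have hst2 : ∀ n i, i ≤ n → st n i = st i i := by
    intro n i h
    induction h with
    | refl => rfl
    | @step m h ih =>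
      rw [hst, if_pos (show i ≤ m from h)]
      exact ih
  have hsucc : ∀ n, st (n + 1) (n + 1) =
      nx (st n n) (en (st n n.unpair.1).1 n.unpair.2.unpair.1)
        (en (st n n.unpair.1).1 n.unpair.2.unpair.2.unpair.1) n.unpair.2.unpair.2.unpair.2 := by
    intro n
    rw [hst, if_neg (by omega)]
  have hle : ∀ m n, m ≤ n → Le (st m m).1 (st n n).1 := by
    intro m n h
    induction h with
    | refl => exact Le.refl _
    | step h ih =>
      refine ih.trans ?_
      rw [Nat.succ_eq_add_one, hsucc]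
      exact hnx1 _ _ _ _
  refine ⟨fun n => (st n n).1, rfl, fun n => (st n n).2, hle, fun n A B k hA hB => ?_⟩
  obtain ⟨e1, he1⟩ := exists_en hA
  obtain ⟨e2, he2⟩ := exists_en hB
  let m := Nat.pair n (Nat.pair e1 (Nat.pair e2 k))
  have hnm : n ≤ m := Nat.left_le_pair _ _
  refine ⟨m + 1, ?_⟩
  show P A B k (st (m + 1) (m + 1)).1
  rw [hsucc]
  have e1' : m.unpair.1 = n := by simp [m]
  have e2' : m.unpair.2.unpair.1 = e1 := by simp [m]
  have e3' : m.unpair.2.unpair.2.unpair.1 = e2 := by simp [m]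
  have e4' : m.unpair.2.unpair.2.unpair.2 = k := by simp [m]
  rw [e1', e2', e3', e4', hst2 m n hnm, ← he1, ← he2]
  exact hnx2 _ _ _ _ (hA.trans (hle n m hnm)) (hB.trans (hle n m hnm))

/-- the stage `s` of the diagonal function -/
def Dst (s n : ℕ) (b : Bool) : Prop :=
  Nat.Partrec.Code.evaln s (Denumerable.ofNat Nat.Partrec.Code n) n = some (encode b)

theorem Dst_mono {s t n : ℕ} {b : Bool} (h : s ≤ t) (hs : Dst s n b) : Dst t n b := by
  unfold Dst at *
  have := Nat.Partrec.Code.evaln_mono h (Option.mem_def.2 hs)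
  exact Option.mem_def.1 this

theorem D_iff {n : ℕ} {b : Bool} : D n b ↔ ∃ s, Dst s n b :=
  Nat.Partrec.Code.evaln_complete

theorem computable_evaln : Computable fun x : (ℕ × ℕ) =>
    Nat.Partrec.Code.evaln x.1 (Denumerable.ofNat Nat.Partrec.Code x.2) x.2 := by
  have h2 : Computable fun x : (ℕ × Nat.Partrec.Code) × ℕ =>
      (Nat.Partrec.Code.evaln x.1.1 x.1.2 x.2) := Nat.Partrec.Code.primrec_evaln.to_comp
  refine h2.comp (g := fun x : ℕ × ℕ =>
    ((x.1, Denumerable.ofNat Nat.Partrec.Code x.2), x.2)) ?_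
  have h3 : Computable fun n : ℕ => Denumerable.ofNat Nat.Partrec.Code n :=
    Computable.ofNat Nat.Partrec.Code
  exact (Computable.fst.pair (h3.comp (by fun_prop))).pair (by fun_prop)

/-- the tree of the strings which avoid the diagonal function -/
def TD : Set (List Bool) := {σ | ∀ n < σ.length, ¬ Dst σ.length n (σ.getD n false)}

theorem TD_prefix {σ τ : List Bool} (h : σ <+: τ) (hτ : τ ∈ TD) : σ ∈ TD := by
  intro n hn hD
  obtain ⟨ρ, rfl⟩ := h
  refine hτ n (by rw [List.length_append]; omega) ?_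
  rw [List.getD_append _ _ _ _ hn]
  exact Dst_mono (by rw [List.length_append]; omega) hD

theorem TD_level (n : ℕ) : ∃ σ ∈ TD, σ.length = n := by
  have h1 : ∀ i, ∃ b : Bool, ¬ Dst n i b := by
    intro i
    by_contra hcon
    push Not at hcon
    have h2 := hcon true
    have h3 := hcon false
    unfold Dst at h2 h3
    rw [h2] at h3
    simp at h3
  choose b hb using h1
  refine ⟨(List.range n).map b, fun i hi => ?_, by simp⟩
  rw [List.length_map, List.length_range] at hi ⊢
  rw [List.getD_eq_getElem _ _ (by simpa using hi)]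
  simpa using hb i

theorem TD_infinite : TD.Infinite := by
  intro hfin
  have h1 : (List.length '' TD).Finite := hfin.image _
  have h2 : List.length '' TD = Set.univ := by
    ext n
    simp only [Set.mem_image, Set.mem_univ, iff_true]
    obtain ⟨σ, h3, h4⟩ := TD_level n
    exact ⟨σ, h3, h4⟩
  rw [h2] at h1
  exact Set.infinite_univ h1

theorem computable_getDB : Computable fun x : List Bool × ℕ => x.1.getD x.2 false :=
  (Primrec.list_getD false).to_comp

theorem cp_TD : ComputablePred fun σ : List Bool => σ ∈ TD := by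
  have h0 : Computable fun x : List Bool × ℕ =>
      Nat.Partrec.Code.evaln x.1.length (Denumerable.ofNat Nat.Partrec.Code x.2) x.2 :=
    computable_evaln.comp (g := fun x : List Bool × ℕ => (x.1.length, x.2)) (by fun_prop)
  have h1 : REPred fun σ : List Bool => σ ∈ TD := by
    refine RE.all_lt (p := fun (σ : List Bool) (n : ℕ) => ¬ Dst σ.length n (σ.getD n false)) ?_
      (by fun_prop)
    exact RE.ne h0 (Computable.option_some.comp (Computable.encode.comp computable_getDB))
  have h2 : REPred fun σ : List Bool => ¬ σ ∈ TD := by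
    have h3 : REPred fun σ : List Bool => ∃ n, n < σ.length ∧ Dst σ.length n (σ.getD n false) := by
      refine RE.ex (p := fun (σ : List Bool) (n : ℕ) => n < σ.length ∧
        Dst σ.length n (σ.getD n false)) ?_
      refine RE.and (RE.lt (by fun_prop) (by fun_prop)) ?_
      exact RE.eq h0 (Computable.option_some.comp (Computable.encode.comp computable_getDB))
    refine h3.of_eq fun σ => ?_
    unfold TD
    simp only [Set.mem_ofPred_eq, not_forall, not_not, exists_prop]
  exact RE.cp_of_re h1 h2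

theorem dec_codes {Z : Set ℕ} : Le (encode '' TD) Z := by
  have h1 : REPred fun σ : List Bool => σ ∈ TD := cp_TD.to_re
  have h2 : REPred fun σ : List Bool => ¬ σ ∈ TD := cp_TD.not.to_re
  constructor
  · have h3 : REPred fun n : ℕ => ∃ σ : List Bool, σ ∈ TD ∧ encode σ = n := by
      refine RE.ex (p := fun (n : ℕ) (σ : List Bool) => σ ∈ TD ∧ encode σ = n) ?_
      exact RE.and (RE.comp h1 (by fun_prop)) (RE.eq (by fun_prop) (by fun_prop))
    exact REIn.of_re (h3.of_eq fun n => Iff.rfl)
  · have h3 : REPred fun n : ℕ => ((decode (α := List Bool) n).map encode ≠ some n) ∨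
        ∃ σ : List Bool, ¬ σ ∈ TD ∧ encode σ = n := by
      refine RE.or ?_ ?_
      · refine RE.ne ?_ (by fun_prop)
        exact Computable.option_map (Computable.decode (α := List Bool))
          (Computable.encode.comp Computable.snd).to₂
      · refine RE.ex (p := fun (n : ℕ) (σ : List Bool) => ¬ σ ∈ TD ∧ encode σ = n) ?_
        exact RE.and (RE.comp h2 (by fun_prop)) (RE.eq (by fun_prop) (by fun_prop))
    refine REIn.of_re (h3.of_eq fun n => ?_)
    constructor
    · rintro (h | ⟨σ, h4, rfl⟩) ⟨τ, h5, h6⟩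
      · apply h
        rw [← h6, encodek]
        rfl
      · exact h4 (encode_injective h6 ▸ h5)
    · intro h
      by_cases h4 : (decode (α := List Bool) n).map encode = some n
      · obtain ⟨σ, hσ, he⟩ := Option.map_eq_some_iff.1 h4
        exact Or.inr ⟨σ, fun h5 => h ⟨σ, h5, he⟩, he⟩
      · exact Or.inl h4

theorem sep_of_path {Z : Set ℕ} {g : ℕ → Bool} (hg : Le {n | g n = true} Z)
    (hp : ∀ n, (List.range n).map g ∈ TD) : Sep Z := by
  refine ⟨g, ?_, fun n b hD he => ?_⟩
  · have h1 : REIn Z fun x : ℕ × Bool => (g x.1 = true ∧ x.2 = true) ∨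
        (¬ g x.1 = true ∧ x.2 = false) := by
      refine REIn.or (REIn.and ?_ (REIn.of_re (RE.eq (by fun_prop) (by fun_prop))))
        (REIn.and ?_ (REIn.of_re (RE.eq (by fun_prop) (by fun_prop))))
      · exact hg.1.comp (f := fun x : ℕ × Bool => x.1) (by fun_prop)
      · exact hg.2.comp (f := fun x : ℕ × Bool => x.1) (by fun_prop)
    refine h1.of_eq fun x => ?_
    cases g x.1 <;> cases x.2 <;> simp
  · subst he
    obtain ⟨s, hs⟩ := D_iff.1 hD
    have h1 := hp (max s (n + 1)) n (by simp)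
    apply h1
    rw [List.getD_eq_getElem _ _ (by simp)]
    simp only [List.getElem_map, List.getElem_range, List.length_map, List.length_range]
    exact Dst_mono (le_max_left _ _) hs

end Pool.Agent.KS6_47.PR
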