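import Pool.Agent.KS6_47.PR.Step

/-!
The construction of a packed set relative to which the diagonal function is not avoided.
-/

set_option autoImplicit false

namespace Pool.Agent.KS6_47.PR

open Encodable Pool.Agent.Helper446 Pool.Agent.Helper446.Defs Pool.Agent.Helper446.RE
  Pool.Agent.Helper446.Oracle Pool.Agent.R623.Dec

open CategoryTheory in
theorem konig (A : ℕ → Type) [∀ n, Finite (A n)] [∀ n, Nonempty (A n)] (π : ∀ n, A (n + 1) → A n) :
    ∃ v : ∀ n, A n, ∀ n, π n (v (n + 1)) = v n := by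
  let F : ℕᵒᵖ ⥤ Type := Functor.ofOpSequence (C := Type) (X := A) (fun n => ↾(π n))
  have h1 : ∀ j, Finite (F.obj j) := fun j => inferInstanceAs (Finite (A j.unop))
  have h2 : ∀ j, Nonempty (F.obj j) := fun j => inferInstanceAs (Nonempty (A j.unop))
  obtain ⟨u, hu⟩ := nonempty_sections_of_finite_inverse_system F
  refine ⟨fun n => u (Opposite.op n), fun n => ?_⟩
  have h3 := hu (homOfLE (Nat.le_add_right n 1)).op
  rw [show F.map (homOfLE (Nat.le_add_right n 1)).op = (↾(π n) : A (n+1) ⟶ A n) from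
    Functor.ofOpSequence_map_homOfLE_succ _ n] at h3
  exact h3

variable {Z : Set ℕ} {k : ℕ} {I : Inst Z k} {ι ι' : Type}

/-- a condition together with its index type -/
structure BC (I : Inst Z k) where
  ι : Type
  fin : Fintype ι
  enc : Encodable ι
  c : Cond I ι

/-- the trivial condition -/
def triv (I : Inst Z k) : Cond I Unit where
  t := 0
  C := Set.univ
  X := fun _ _ => Set.univ
  F := fun _ _ => []
  hC := (R2.const False).of_eq fun _ X => by simp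
  hne := ⟨∅, trivial⟩
  hX := fun _ => CF.univ
  hcov := fun _ _ _ => ⟨(), trivial⟩
  hF := fun _ _ b hb => by simp at hb

theorem exists_step' (hZ : ¬ Sep Z) (q : Rq Z k) (B : BC I) :
    ∃ (B' : BC I) (π : B'.ι → B.ι), (∀ μ, Ext B'.c μ B.c (π μ)) ∧ ∀ μ, Sat q B'.c μ := by
  classical
  obtain ⟨ι, fin, enc, c⟩ := B
  obtain ⟨M, c', h1, h2⟩ := exists_step hZ q c
  exact ⟨⟨NewPart M ι k, inferInstance, inferInstance, c'⟩, fun z => z.1.2.2.1, h1, h2⟩

/-- the sequence of conditions -/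
noncomputable def BB (hZ : ¬ Sep Z) (q : ℕ → Rq Z k) : ℕ → BC I
  | 0 => ⟨Unit, inferInstance, inferInstance, triv I⟩
  | n + 1 => (exists_step' hZ (q n) (BB hZ q n)).choose

theorem BB_spec (hZ : ¬ Sep Z) (q : ℕ → Rq Z k) (n : ℕ) :
    ∃ π : (BB (I := I) hZ q (n + 1)).ι → (BB (I := I) hZ q n).ι,
      (∀ μ, Ext (BB (I := I) hZ q (n + 1)).c μ (BB (I := I) hZ q n).c (π μ)) ∧
      ∀ μ, Sat (q n) (BB (I := I) hZ q (n + 1)).c μ :=
  (exists_step' hZ (q n) (BB hZ q n)).choose_spec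

/-- an acceptable part -/
def Acc (c : Cond I ι) (μ : ι) : Prop := ∃ Y ∈ c.C, c.X μ Y ∈ I.U

theorem exists_acc [Finite ι] (c : Cond I ι) : ∃ μ, Acc c μ := by
  obtain ⟨Y, hY⟩ := c.hne
  have h1 : (⋃ ν ∈ (Set.univ : Set ι), c.X ν Y) ∈ I.U := by
    have : (⋃ ν ∈ (Set.univ : Set ι), c.X ν Y) = Set.univ := by
      ext x
      simpa using c.hcov Y hY x
    rw [this]
    exact Filter.univ_mem
  rw [Ultrafilter.finite_biUnion_mem_iff Set.finite_univ] at h1
  obtain ⟨μ, _, hμ⟩ := h1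
  exact ⟨μ, Y, hY, hμ⟩

theorem Acc.mono {c' : Cond I ι'} {μ' : ι'} {c : Cond I ι} {μ : ι} (h : Ext c' μ' c μ)
    (ha : Acc c' μ') : Acc c μ := by
  obtain ⟨Y', hY', hU⟩ := ha
  obtain ⟨Y, hY, hs, _⟩ := h.2 Y' hY'
  exact ⟨Y, hY, Filter.mem_of_superset hU hs⟩

/-- a path through the tree of the parts -/
theorem exists_path (hZ : ¬ Sep Z) (q : ℕ → Rq Z k) : ∃ μ : ∀ n, (BB (I := I) hZ q n).ι,
    (∀ n, Acc (BB (I := I) hZ q n).c (μ n)) ∧
    (∀ n, Ext (BB (I := I) hZ q (n + 1)).c (μ (n + 1)) (BB (I := I) hZ q n).c (μ n)) ∧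
    ∀ n, Sat (q n) (BB (I := I) hZ q (n + 1)).c (μ (n + 1)) := by
  choose π h1 h2 using BB_spec (I := I) hZ q
  let A : ℕ → Type := fun n => {μ : (BB (I := I) hZ q n).ι // Acc (BB (I := I) hZ q n).c μ}
  have hf : ∀ n, Finite (A n) := fun n => by
    have := (BB (I := I) hZ q n).fin
    infer_instance
  have hn : ∀ n, Nonempty (A n) := fun n => by
    have := (BB (I := I) hZ q n).fin
    obtain ⟨μ, hμ⟩ := exists_acc (BB (I := I) hZ q n).c
    exact ⟨⟨μ, hμ⟩⟩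
  obtain ⟨v, hv⟩ := konig A fun n μ => ⟨π n μ.1, μ.2.mono (h1 n μ.1)⟩
  refine ⟨fun n => (v n).1, fun n => (v n).2, fun n => ?_, fun n => h2 n _⟩
  have h3 := h1 n (v (n + 1)).1
  have h4 : π n (v (n + 1)).1 = (v n).1 := congrArg Subtype.val (hv n)
  rw [h4] at h3
  exact h3

/-- the operator with the set `G` does not compute a function avoiding the diagonal function -/
def NS (Γ : ℕ × Bool → Info → Prop) (G : Set ℕ) : Prop :=
  ¬ ∃ g : ℕ → Bool, (∀ n b, g n = b ↔ Val Γ G n b) ∧ ∀ n b, D n b → g n ≠ b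

/-- the enumeration operators relative to `Z` -/
def Gam (Z : Set ℕ) (e : ℕ) (x : ℕ × Bool) (c : Info) : Prop :=
  ∃ d : Info, (∃ s, wst (((ℕ × Bool) × Info) × Info) e s ((x, c), d) = true) ∧ Ok Z d

theorem re_Gam (Z : Set ℕ) (e : ℕ) : REIn Z fun x : (ℕ × Bool) × Info => Gam Z e x.1 x.2 := by
  refine ⟨fun x d => ∃ s, wst (((ℕ × Bool) × Info) × Info) e s (x, d) = true, ?_, fun x => Iff.rfl⟩
  exact wst_re e

theorem exists_Gam {Z : Set ℕ} {S : ℕ × Bool → Info → Prop}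
    (h : REIn Z fun x : (ℕ × Bool) × Info => S x.1 x.2) : ∃ e, S = Gam Z e := by
  obtain ⟨R, hR, h1⟩ := h
  obtain ⟨e, he⟩ := wst_univ hR
  refine ⟨e, funext fun x => funext fun c => propext ?_⟩
  have h2 := h1 (x, c)
  simp only at h2
  rw [h2]
  unfold Gam
  refine exists_congr fun d => and_congr_left fun _ => ?_
  exact he ((x, c), d)

/-- **The main construction.** -/
theorem one_step (I : Inst Z k) (hZ : ¬ Sep Z) : ∃ (H : Set ℕ) (σ : Fin k × Fin k),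
    ¬ Sep (jn H Z) ∧ (∀ x ∈ H, 0 < x) ∧
    (∀ w0, ∃ w, w0 < w ∧ ∃ B : Finset ℕ, (∀ x ∈ B, x ∈ H ∧ x ≤ w) ∧ I.psi w ≤ B.card) ∧
    ∀ x ∈ H, ∀ y ∈ H, x < y → I.c x y = σ.1 ∨ I.c x y = σ.2 := by
  classical
  obtain ⟨f, hf⟩ := exists_surjective_nat (Fin k × Fin k → ℕ × ℕ)
  let q : ℕ → Rq Z k := fun m =>
    ⟨fun σ => (f m σ).1, fun σ => Gam Z (f m σ).2, fun σ => re_Gam Z _⟩
  obtain ⟨μ, hacc, hext, hsat⟩ := exists_path (I := I) hZ q
  obtain ⟨F, hF⟩ : ∃ F : ℕ → Fin k × Fin k → List Blk, F = fun n σ =>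
    (BB (I := I) hZ q n).c.F (μ n) σ := ⟨_, rfl⟩
  let H : Fin k × Fin k → Set ℕ := fun σ => {x | ∃ n, x ∈ el (F n σ)}
  have hExt : ∀ m n, m ≤ n →
      Ext (BB (I := I) hZ q n).c (μ n) (BB (I := I) hZ q m).c (μ m) := by
    intro m n h
    induction h with
    | refl => exact Ext.refl _ _
    | step _ ih => exact (hext _).trans ih
  -- the sets of blocks are increasing
  have hmono : ∀ m n, m ≤ n → ∀ σ, ∃ E, F n σ = F m σ ++ E ∧
      I.VE σ.1 σ.2 (BB (I := I) hZ q m).c.t E ∧ ∃ Y ∈ (BB (I := I) hZ q m).c.C,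
      ∀ x ∈ el E, x ∈ (BB (I := I) hZ q m).c.X (μ m) Y ∧ I.Rt (BB (I := I) hZ q m).c.t x := by
    intro m n h σ
    obtain ⟨Y', hY'⟩ := (BB (I := I) hZ q n).c.hne
    obtain ⟨Y, hY, _, hE⟩ := (hExt m n h).2 Y' hY'
    obtain ⟨E, h1, h2, h3⟩ := hE σ
    refine ⟨E, by rw [hF]; exact h1, h2, Y, hY, fun x hx => ⟨(h3 x hx).1, (h3 x hx).2.1⟩⟩
  have hsub : ∀ m n, m ≤ n → ∀ σ b, b ∈ F m σ → b ∈ F n σ := by
    intro m n h σ b hb
    obtain ⟨E, h1, _⟩ := hmono m n h σ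
    rw [h1]
    exact List.mem_append_left _ hb
  have helsub : ∀ m n, m ≤ n → ∀ σ x, x ∈ el (F m σ) → x ∈ el (F n σ) := by
    rintro m n h σ x ⟨b, hb, hx⟩
    exact ⟨b, hsub m n h σ b hb, hx⟩
  have hVE : ∀ n σ, I.VE σ.1 σ.2 0 (F n σ) := by
    intro n σ
    obtain ⟨E, h1, h2, _⟩ := hmono 0 n (Nat.zero_le _) σ
    have h3 : F 0 σ = [] := by rw [hF]; rfl
    rw [h3, List.nil_append] at h1
    rw [h1]
    exact h2
  have hfin : ∀ (σ : Fin k × Fin k) (l : List ℕ), (∀ x ∈ l, x ∈ H σ) → ∀ m, ∃ n, m ≤ n ∧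
      ∀ x ∈ l, x ∈ el (F n σ) := by
    intro σ l
    induction l with
    | nil => exact fun _ m => ⟨m, le_refl _, fun x hx => by simp at hx⟩
    | cons a l ih =>
      intro h m
      obtain ⟨n, hn⟩ := h a List.mem_cons_self
      obtain ⟨n', h1, h2⟩ := ih (fun x hx => h x (List.mem_cons_of_mem _ hx)) (max m n)
      refine ⟨n', (le_max_left _ _).trans h1, fun x hx => ?_⟩
      rcases List.mem_cons.1 hx with rfl | hx
      · exact helsub n n' ((le_max_right _ _).trans h1) σ _ hn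
      · exact h2 x hx
  -- every requirement is met
  have hreq : ∀ g : Fin k × Fin k → ℕ × ℕ, ∃ σ, (∃ n, (g σ).1 ≤ cnt (F n σ)) ∧
      NS (Gam Z (g σ).2) (H σ) := by
    intro g
    obtain ⟨m, rfl⟩ := hf g
    rcases hsat m with h | h | h
    · obtain ⟨σ, h1, n, b, d, h2, h3, h4, h5⟩ := h
      refine ⟨σ, ⟨m + 1, by rw [hF]; exact h1⟩, ?_⟩
      rintro ⟨g, hg1, hg2⟩
      refine hg2 n b h2 ((hg1 n b).2 ⟨d, h3, fun x hx => ⟨m + 1, ?_⟩, fun x hx hxH => ?_⟩)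
      · rw [hF]
        exact h4.1 x hx
      · obtain ⟨n', hn'⟩ := hxH
        obtain ⟨E, h6, h7, _⟩ := hmono (m + 1) (max (m + 1) n') (le_max_left _ _) σ
        have h8 := helsub n' _ (le_max_right (m + 1) n') σ x hn'
        rw [h6, el_append] at h8
        rcases h8 with h8 | ⟨b', hb', hx'⟩
        · rw [hF] at h8
          exact h4.2 x hx h8
        · have h9 := (h7.1 b' hb').2.2 x hx'
          have h10 := h5 x hx
          omega
    · obtain ⟨σ, h1, n, h2⟩ := h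
      refine ⟨σ, ⟨m + 1, by rw [hF]; exact h1⟩, ?_⟩
      rintro ⟨g, hg1, _⟩
      obtain ⟨d, hd, hok⟩ := (hg1 n (g n)).1 rfl
      obtain ⟨n', hn', h3⟩ := hfin σ d.1 (fun x hx => hok.1 x hx) (m + 1)
      obtain ⟨E, h4, h5, Y, hY, h6⟩ := hmono (m + 1) n' hn' σ
      refine h2 Y hY E h5 h6 (g n) ⟨d, hd, fun x hx => ?_, fun x hx hx' => ?_⟩
      · have h7 := h3 x hx
        rw [h4, hF] at h7
        exact h7
      · refine hok.2 x hx ⟨n', ?_⟩
        rw [h4, hF]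
        exact hx'
    · exfalso
      obtain ⟨Y, hY, hU⟩ := hacc (m + 1)
      obtain ⟨w, hw, B, hB1, hB2, hB3, i, hB4⟩ := I.hU _
        (Filter.inter_mem hU (I.Rt_mem (BB (I := I) hZ q (m + 1)).c.t))
        (BB (I := I) hZ q (m + 1)).c.t
      refine h Y hY i (w, B.toList) ⟨B.nodup_toList, ?_, ?_, ?_⟩ hw ?_
      · rw [Finset.length_toList]
        exact hB3
      · intro x hx
        exact hB2 x (Finset.mem_toList.1 hx)
      · intro x hx y hy
        exact hB4 x (Finset.mem_toList.1 hx) y (Finset.mem_toList.1 hy)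
      · intro x hx
        exact hB1 x (Finset.mem_toList.1 hx)
  -- the side
  have hside : ∃ σ, ∀ n e, (∃ m, n ≤ cnt (F m σ)) ∧ NS (Gam Z e) (H σ) := by
    by_contra hcon
    push Not at hcon
    choose a b hab using hcon
    obtain ⟨σ, h1, h2⟩ := hreq fun σ => (a σ, b σ)
    exact hab σ h1 h2
  obtain ⟨σ, hσ⟩ := hside
  refine ⟨H σ, σ, ?_, ?_, ?_, ?_⟩
  · rintro ⟨g, hg1, hg2⟩
    obtain ⟨S, hS1, hS2⟩ := use_jn hg1
    obtain ⟨e, rfl⟩ := exists_Gam hS1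
    exact (hσ 0 e).2 ⟨g, fun n b => hS2 (n, b), hg2⟩
  · rintro x ⟨n, b, hb, hx⟩
    exact ((hVE n σ).1 b hb).2.2 x hx
  · intro w0
    obtain ⟨m, hm⟩ := (hσ (w0 + 2) 0).1
    have h1 : ∃ b ∈ F m σ, w0 < b.1 := by
      by_contra hcon
      push Not at hcon
      have h2 : ((F m σ).map Prod.fst).toFinset ⊆ Finset.range (w0 + 1) := by
        intro x hx
        rw [List.mem_toFinset] at hx
        obtain ⟨b, hb, rfl⟩ := List.mem_map.1 hx
        rw [Finset.mem_range]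
        have := hcon b hb
        omega
      have h3 := Finset.card_le_card h2
      rw [Finset.card_range] at h3
      unfold cnt at hm
      omega
    obtain ⟨b, hb, hlt⟩ := h1
    obtain ⟨⟨h2, h3, h4, _⟩, _, _⟩ := (hVE m σ).1 b hb
    refine ⟨b.1, hlt, b.2.toFinset, fun x hx => ?_, ?_⟩
    · rw [List.mem_toFinset] at hx
      exact ⟨⟨m, b, hb, hx⟩, h4 x hx⟩
    · rw [List.toFinset_card_of_nodup h2]
      exact h3
  · rintro x ⟨n, hn⟩ y ⟨n', hn'⟩ hxy
    obtain ⟨b, hb, hx⟩ := helsub n (max n n') (le_max_left _ _) σ x hn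
    obtain ⟨b', hb', hy⟩ := helsub n' (max n n') (le_max_right _ _) σ y hn'
    obtain ⟨h1, h2, h3⟩ := hVE (max n n') σ
    rcases lt_trichotomy b.1 b'.1 with h | h | h
    · exact Or.inr ((h2 b hb b' hb' h y hy).2 x hx)
    · have := h3 b hb b' hb' h
      subst this
      exact Or.inl ((h1 b hb).1.2.2.2 x hx y hy hxy)
    · have h4 := (h2 b' hb' b hb h x hx).1
      have h5 := (h1 b' hb').1.2.2.1 y hy
      omega

end Pool.Agent.KS6_47.PR
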