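import Pool.Graph.R_seed8.R623.C.Om

/-!
Predicates of a coded object and a set of natural numbers which are enumerable relative to an
oracle, their closure properties, and compactness.
-/

set_option autoImplicit false

namespace Pool.Agent.KS6_47.PR

open Encodable Pool.Agent.Helper446 Pool.Agent.Helper446.Defs Pool.Agent.Helper446.RE
  Pool.Agent.Helper446.Oracle Pool.Agent.R623.Dec

/-- finite information on a set -/
abbrev Info := List ℕ × List ℕ

variable {α β γ : Type} [Primcodable α] [Primcodable β] [Primcodable γ]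

/-- `P a X` is enumerable in `Z`, uniformly in `a` and `X`. -/
def R2 (Z : Set ℕ) (P : α → Set ℕ → Prop) : Prop :=
  ∃ S : α → Info → Prop, REIn Z (fun x : α × Info => S x.1 x.2) ∧
    ∀ a X, P a X ↔ ∃ c, S a c ∧ Ok X c

variable {Z : Set ℕ}

theorem R2.of_eq {P Q : α → Set ℕ → Prop} (h : R2 Z P) (hPQ : ∀ a X, P a X ↔ Q a X) : R2 Z Q := by
  have : P = Q := funext fun a => funext fun X => propext (hPQ a X)
  rw [← this]; exact h

theorem ok_nil (X : Set ℕ) : Ok X ([], []) :=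
  ⟨fun x hx => by simp at hx, fun x hx => by simp at hx⟩

theorem R2.of_re {S : α → Prop} (h : REIn Z S) : R2 Z fun a _ => S a := by
  refine ⟨fun a _ => S a, h.comp (f := fun x : α × Info => x.1) (by fun_prop), fun a X => ?_⟩
  constructor
  · intro h
    exact ⟨([], []), h, ok_nil X⟩
  · rintro ⟨_, h, _⟩; exact h

theorem R2.mem {f : α → ℕ} (hf : Computable f) : R2 Z fun a X => f a ∈ X := by
  refine ⟨fun a c => f a ∈ c.1, REIn.of_re (RE.mem_list (f := fun x : α × Info => f x.1)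
    (l := fun x : α × Info => x.2.1) (by fun_prop) (by fun_prop)), fun a X => ?_⟩
  constructor
  · intro h
    exact ⟨([f a], []), by simp, fun x hx => by simp at hx; rw [hx]; exact h,
      fun x hx => by simp at hx⟩
  · rintro ⟨c, h1, h2⟩; exact h2.1 _ h1

theorem R2.not_mem {f : α → ℕ} (hf : Computable f) : R2 Z fun a X => f a ∉ X := by
  refine ⟨fun a c => f a ∈ c.2, REIn.of_re (RE.mem_list (f := fun x : α × Info => f x.1)
    (l := fun x : α × Info => x.2.2) (by fun_prop) (by fun_prop)), fun a X => ?_⟩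
  constructor
  · intro h
    exact ⟨([], [f a]), by simp, fun x hx => by simp at hx,
      fun x hx => by simp at hx; rw [hx]; exact h⟩
  · rintro ⟨c, h1, h2⟩; exact h2.2 _ h1

theorem R2.comp {S : β → Set ℕ → Prop} (h : R2 Z S) {f : α → β} (hf : Computable f) :
    R2 Z fun a X => S (f a) X := by
  obtain ⟨R, hR, h⟩ := h
  exact ⟨fun a c => R (f a) c, hR.comp (f := fun x : α × Info => (f x.1, x.2))
    (by fun_prop), fun a X => h (f a) X⟩

theorem R2.and {S T : α → Set ℕ → Prop} (hS : R2 Z S) (hT : R2 Z T) :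
    R2 Z fun a X => S a X ∧ T a X := by
  obtain ⟨R, hR, h1⟩ := hS
  obtain ⟨R', hR', h2⟩ := hT
  refine ⟨fun a c => ∃ x : Info × Info, R a x.1 ∧ R' a x.2 ∧
    c = (x.1.1 ++ x.2.1, x.1.2 ++ x.2.2), ?_, fun a X => ?_⟩
  · refine REIn.ex (S := fun (y : α × Info) (x : Info × Info) => R y.1 x.1 ∧ R' y.1 x.2 ∧
      y.2 = (x.1.1 ++ x.2.1, x.1.2 ++ x.2.2)) ?_
    refine REIn.and ?_ (REIn.and ?_ (REIn.of_re (RE.eq (by fun_prop) (by fun_prop))))
    · exact hR.comp (f := fun y : (α × Info) × (Info × Info) => (y.1.1, y.2.1)) (by fun_prop)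
    · exact hR'.comp (f := fun y : (α × Info) × (Info × Info) => (y.1.1, y.2.2)) (by fun_prop)
  · constructor
    · rintro ⟨h3, h4⟩
      obtain ⟨c, hc1, hc2⟩ := (h1 a X).1 h3
      obtain ⟨d, hd1, hd2⟩ := (h2 a X).1 h4
      exact ⟨_, ⟨(c, d), hc1, hd1, rfl⟩, hc2.append hd2⟩
    · rintro ⟨_, ⟨⟨c, d⟩, hc1, hd1, rfl⟩, h3⟩
      refine ⟨(h1 a X).2 ⟨c, hc1, ?_⟩, (h2 a X).2 ⟨d, hd1, ?_⟩⟩
      · exact ⟨fun x hx => h3.1 x (List.mem_append_left _ hx),
          fun x hx => h3.2 x (List.mem_append_left _ hx)⟩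
      · exact ⟨fun x hx => h3.1 x (List.mem_append_right _ hx),
          fun x hx => h3.2 x (List.mem_append_right _ hx)⟩

theorem R2.or {S T : α → Set ℕ → Prop} (hS : R2 Z S) (hT : R2 Z T) :
    R2 Z fun a X => S a X ∨ T a X := by
  obtain ⟨R, hR, h1⟩ := hS
  obtain ⟨R', hR', h2⟩ := hT
  refine ⟨fun a c => R a c ∨ R' a c, REIn.or hR hR', fun a X => ?_⟩
  simp only [h1, h2]
  constructor
  · rintro (⟨c, h3, h4⟩ | ⟨c, h3, h4⟩)
    exacts [⟨c, Or.inl h3, h4⟩, ⟨c, Or.inr h3, h4⟩]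
  · rintro ⟨c, h3 | h3, h4⟩
    exacts [Or.inl ⟨c, h3, h4⟩, Or.inr ⟨c, h3, h4⟩]

theorem R2.ex {S : α → β → Set ℕ → Prop} (hS : R2 Z fun (x : α × β) X => S x.1 x.2 X) :
    R2 Z fun a X => ∃ b, S a b X := by
  obtain ⟨R, hR, h1⟩ := hS
  refine ⟨fun a c => ∃ b, R (a, b) c, ?_, fun a X => ?_⟩
  · refine REIn.ex (S := fun (y : α × Info) (b : β) => R (y.1, b) y.2) ?_
    exact hR.comp (f := fun y : (α × Info) × β => ((y.1.1, y.2), y.1.2))
      (by fun_prop)
  · constructor
    · rintro ⟨b, hb⟩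
      obtain ⟨c, h2, h3⟩ := (h1 (a, b) X).1 hb
      exact ⟨c, ⟨b, h2⟩, h3⟩
    · rintro ⟨c, ⟨b, h2⟩, h3⟩
      exact ⟨b, (h1 (a, b) X).2 ⟨c, h2, h3⟩⟩

theorem R2.all_lt {S : α → ℕ → Set ℕ → Prop} (hS : R2 Z fun (x : α × ℕ) X => S x.1 x.2 X)
    {f : α → ℕ} (hf : Computable f) : R2 Z fun a X => ∀ i < f a, S a i X := by
  obtain ⟨R, hR, h1⟩ := hS
  refine ⟨fun a c => ∀ i < f a, ∃ d : Info, R (a, i) d ∧
    (∀ x ∈ d.1, x ∈ c.1) ∧ ∀ x ∈ d.2, x ∈ c.2, ?_, fun a X => ?_⟩
  · refine REIn.all_lt (S := fun (y : α × Info) (i : ℕ) =>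
      ∃ d : Info, R (y.1, i) d ∧ (∀ x ∈ d.1, x ∈ y.2.1) ∧ ∀ x ∈ d.2, x ∈ y.2.2)
      ?_ (by fun_prop)
    refine REIn.ex (S := fun (y : (α × Info) × ℕ) (d : Info) =>
      R (y.1.1, y.2) d ∧ (∀ x ∈ d.1, x ∈ y.1.2.1) ∧ ∀ x ∈ d.2, x ∈ y.1.2.2) ?_
    refine REIn.and ?_ (REIn.and (REIn.of_re ?_) (REIn.of_re ?_))
    · exact hR.comp (f := fun y : ((α × Info) × ℕ) × Info =>
        ((y.1.1.1, y.1.2), y.2)) (by fun_prop)
    · refine RE.all_mem (p := fun (y : ((α × Info) × ℕ) × Info)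
        (x : ℕ) => x ∈ y.1.1.2.1) (l := fun y => y.2.1) ?_ (by fun_prop)
      exact RE.mem_list (by fun_prop) (by fun_prop)
    · refine RE.all_mem (p := fun (y : ((α × Info) × ℕ) × Info)
        (x : ℕ) => x ∈ y.1.1.2.2) (l := fun y => y.2.2) ?_ (by fun_prop)
      exact RE.mem_list (by fun_prop) (by fun_prop)
  · constructor
    · intro h
      have h2 : ∀ i, ∃ d : Info, i < f a → R (a, i) d ∧ Ok X d := by
        intro i
        by_cases hi : i < f a
        · obtain ⟨d, hd⟩ := (h1 (a, i) X).1 (h i hi)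
          exact ⟨d, fun _ => hd⟩
        · exact ⟨([], []), fun h => absurd h hi⟩
      choose d hd using h2
      refine ⟨((List.range (f a)).flatMap fun i => (d i).1,
        (List.range (f a)).flatMap fun i => (d i).2), fun i hi => ⟨d i, (hd i hi).1, ?_, ?_⟩,
        ⟨?_, ?_⟩⟩
      · intro x hx
        exact List.mem_flatMap.2 ⟨i, List.mem_range.2 hi, hx⟩
      · intro x hx
        exact List.mem_flatMap.2 ⟨i, List.mem_range.2 hi, hx⟩
      · intro x hx
        obtain ⟨i, hi, hx⟩ := List.mem_flatMap.1 hx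
        exact (hd i (List.mem_range.1 hi)).2.1 x hx
      · intro x hx
        obtain ⟨i, hi, hx⟩ := List.mem_flatMap.1 hx
        exact (hd i (List.mem_range.1 hi)).2.2 x hx
    · rintro ⟨c, hc, hok⟩ i hi
      obtain ⟨d, h2, h3, h4⟩ := hc i hi
      exact (h1 (a, i) X).2 ⟨d, h2, fun x hx => hok.1 x (h3 x hx), fun x hx => hok.2 x (h4 x hx)⟩

theorem R2.all_mem {S : α → β → Set ℕ → Prop} (hS : R2 Z fun (x : α × β) X => S x.1 x.2 X)
    {l : α → List β} (hl : Computable l) : R2 Z fun a X => ∀ b ∈ l a, S a b X := by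
  have h1 : R2 Z fun a X => ∀ i < (l a).length, ∃ b, (l a)[i]? = some b ∧ S a b X := by
    refine R2.all_lt (S := fun a i X => ∃ b, (l a)[i]? = some b ∧ S a b X) ?_ (by fun_prop)
    refine R2.ex (S := fun (x : α × ℕ) b X => (l x.1)[x.2]? = some b ∧ S x.1 b X) ?_
    refine R2.and (R2.of_re (REIn.of_re (RE.eq (by fun_prop) (by fun_prop)))) ?_
    exact hS.comp (f := fun x : (α × ℕ) × β => (x.1.1, x.2)) (by fun_prop)
  refine h1.of_eq fun a X => ?_
  constructor
  · intro h b hb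
    obtain ⟨i, hi, rfl⟩ := List.getElem_of_mem hb
    obtain ⟨b', hb', hp'⟩ := h i hi
    rw [List.getElem?_eq_getElem hi] at hb'
    cases hb'
    exact hp'
  · intro h i hi
    exact ⟨(l a)[i], List.getElem?_eq_getElem hi, h _ (List.getElem_mem hi)⟩

theorem R2.ex_mem {S : α → β → Set ℕ → Prop} (hS : R2 Z fun (x : α × β) X => S x.1 x.2 X)
    {l : α → List β} (hl : Computable l) : R2 Z fun a X => ∃ b ∈ l a, S a b X := by
  refine R2.ex (S := fun a b X => b ∈ l a ∧ S a b X) ?_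
  refine R2.and (R2.of_re (REIn.of_re (RE.mem_list (by fun_prop) (by fun_prop)))) hS

theorem R2.const (P : Prop) : R2 Z fun (_ : α) _ => P :=
  R2.of_re (REIn.of_re (RE.const P))

/-- nonuniform finite conjunctions -/
theorem R2.all_fin {ι : Type} [Finite ι] {P : ι → α → Set ℕ → Prop} (h : ∀ i, R2 Z (P i)) :
    R2 Z fun a X => ∀ i, P i a X := by
  classical
  cases nonempty_fintype ι
  have key : ∀ s : Finset ι, R2 Z fun a X => ∀ i ∈ s, P i a X := by
    intro s
    induction s using Finset.induction_on with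
    | empty => exact (R2.const True).of_eq fun a X => by simp
    | insert i s _ ih =>
      exact ((h i).and ih).of_eq fun a X => by simp
  exact (key Finset.univ).of_eq fun a X => by simp

/-- nonuniform finite disjunctions -/
theorem R2.ex_fin {ι : Type} [Finite ι] {P : ι → α → Set ℕ → Prop} (h : ∀ i, R2 Z (P i)) :
    R2 Z fun a X => ∃ i, P i a X := by
  classical
  cases nonempty_fintype ι
  have key : ∀ s : Finset ι, R2 Z fun a X => ∃ i ∈ s, P i a X := by
    intro s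
    induction s using Finset.induction_on with
    | empty => exact (R2.const False).of_eq fun a X => by simp
    | insert i s _ ih =>
      exact ((h i).or ih).of_eq fun a X => by simp
  exact (key Finset.univ).of_eq fun a X => by simp

/-- A computable operator on sets (relative to `Z`). -/
def CF (Z : Set ℕ) (G : Set ℕ → Set ℕ) : Prop :=
  R2 Z (fun (x : ℕ) X => x ∈ G X) ∧ R2 Z (fun (x : ℕ) X => x ∉ G X)

theorem R2.sub {P : α → Set ℕ → Prop} (h : R2 Z P) {G : Set ℕ → Set ℕ} (hG : CF Z G) :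
    R2 Z fun a X => P a (G X) := by
  obtain ⟨S, hS, h1⟩ := h
  have h2 : R2 Z fun a X => ∃ c : Info, S a c ∧ (∀ x ∈ c.1, x ∈ G X) ∧ ∀ x ∈ c.2, x ∉ G X := by
    refine R2.ex (S := fun a (c : Info) X => S a c ∧ (∀ x ∈ c.1, x ∈ G X) ∧
      ∀ x ∈ c.2, x ∉ G X) ?_
    refine R2.and (R2.of_re hS) (R2.and ?_ ?_)
    · exact R2.all_mem (S := fun _ x X => x ∈ G X) (hG.1.comp (by fun_prop)) (by fun_prop)
    · exact R2.all_mem (S := fun _ x X => x ∉ G X) (hG.2.comp (by fun_prop)) (by fun_prop)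
  exact h2.of_eq fun a X => (h1 a (G X)).symm

/-- the `n`-th column -/
def colm (n : ℕ) (X : Set ℕ) : Set ℕ := {x | Nat.pair n x ∈ X}

theorem cf_colm (n : ℕ) : CF Z (colm n) :=
  ⟨R2.mem (f := fun x : ℕ => Nat.pair n x) (by fun_prop),
    R2.not_mem (f := fun x : ℕ => Nat.pair n x) (by fun_prop)⟩

theorem CF.comp {G H : Set ℕ → Set ℕ} (hG : CF Z G) (hH : CF Z H) : CF Z fun X => G (H X) :=
  ⟨hG.1.sub hH, hG.2.sub hH⟩

theorem CF.inter {G H : Set ℕ → Set ℕ} (hG : CF Z G) (hH : CF Z H) :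
    CF Z fun X => G X ∩ H X := by
  refine ⟨(hG.1.and hH.1).of_eq fun x X => Iff.rfl, (hG.2.or hH.2).of_eq fun x X => ?_⟩
  rw [Set.mem_inter_iff, not_and_or]

theorem CF.univ : CF Z fun _ => Set.univ :=
  ⟨(R2.const True).of_eq fun x X => by simp, (R2.const False).of_eq fun x X => by simp⟩

/-- the set with the given columns -/
def ofCols (Y : ℕ → Set ℕ) : Set ℕ := {p | p.unpair.2 ∈ Y p.unpair.1}

theorem colm_ofCols (Y : ℕ → Set ℕ) (n : ℕ) : colm n (ofCols Y) = Y n := by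
  ext x
  simp [colm, ofCols]

/-! ### Compactness -/

/-- every set satisfies one of the given pieces of information -/
def Cov (L : List Info) : Prop := ∀ X : Set ℕ, ∃ c ∈ L, Ok X c

/-- the digit -/
def bt (m x : ℕ) : ℕ := m / 2 ^ x % 2

theorem computable_pow2 : Computable fun x : ℕ => 2 ^ x := by
  have h := Computable.nat_rec (f := fun x : ℕ => x) (g := fun _ : ℕ => 1)
    (h := fun (_ : ℕ) (y : ℕ × ℕ) => 2 * y.2) Computable.id (Computable.const 1)
    ((Primrec.nat_mul.comp (Primrec.const 2) (Primrec.snd.comp Primrec.snd)).to_comp)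
  refine h.of_eq fun n => ?_
  induction n with
  | zero => rfl
  | succ n ih =>
    simp only [] at ih ⊢
    rw [pow_succ, ← ih, mul_comm]

theorem computable_bt : Computable₂ bt := by
  have h1 : Computable₂ fun a b : ℕ => a / b := Primrec.nat_div.to_comp
  have h2 : Computable₂ fun a b : ℕ => a % b := Primrec.nat_mod.to_comp
  exact h2.comp (h1.comp Computable.fst (computable_pow2.comp Computable.snd)) (Computable.const 2)

theorem exists_bits (X : Set ℕ) (N : ℕ) : ∃ m < 2 ^ N, ∀ x < N, bt m x = 1 ↔ x ∈ X := by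
  classical
  induction N with
  | zero => exact ⟨0, by simp, fun x hx => absurd hx (by omega)⟩
  | succ N ih =>
    obtain ⟨m, hm, h⟩ := ih
    have hb : ∀ e < 2, ∀ x < N, bt (m + e * 2 ^ N) x = bt m x := by
      intro e he x hx
      unfold bt
      obtain ⟨d, rfl⟩ := Nat.exists_eq_add_of_lt hx
      have h1 : e * 2 ^ (x + d + 1) = 2 ^ x * (2 * (e * 2 ^ d)) := by ring
      rw [h1, Nat.add_mul_div_left _ _ (by positivity), Nat.add_mul_mod_self_left]
    have hN : ∀ e < 2, bt (m + e * 2 ^ N) N = e := by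
      intro e he
      unfold bt
      rw [Nat.add_mul_div_right _ _ (by positivity), Nat.div_eq_of_lt hm, zero_add,
        Nat.mod_eq_of_lt he]
    by_cases hX : N ∈ X
    · refine ⟨m + 1 * 2 ^ N, by rw [pow_succ]; omega, fun x hx => ?_⟩
      rcases Nat.lt_succ_iff_lt_or_eq.1 hx with hx | rfl
      · rw [hb 1 (by omega) x hx]; exact h x hx
      · rw [hN 1 (by omega)]; simp [hX]
    · refine ⟨m + 0 * 2 ^ N, by rw [pow_succ]; omega, fun x hx => ?_⟩
      rcases Nat.lt_succ_iff_lt_or_eq.1 hx with hx | rfl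
      · rw [hb 0 (by omega) x hx]; exact h x hx
      · rw [hN 0 (by omega)]; simp [hX]

theorem cov_iff (L : List Info) : Cov L ↔ ∃ N : ℕ, (∀ c ∈ L, (∀ x ∈ c.1, x < N) ∧ ∀ x ∈ c.2, x < N) ∧
    ∀ m < 2 ^ N, ∃ c ∈ L, (∀ x ∈ c.1, bt m x = 1) ∧ ∀ x ∈ c.2, bt m x ≠ 1 := by
  constructor
  · intro h
    have hN : ∃ N : ℕ, ∀ c ∈ L, (∀ x ∈ c.1, x < N) ∧ ∀ x ∈ c.2, x < N := by
      clear h
      induction L with
      | nil => exact ⟨0, fun c hc => by simp at hc⟩
      | cons d L ih =>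
        obtain ⟨N, hN⟩ := ih
        refine ⟨N + d.1.sum + d.2.sum + 1, fun c hc => ?_⟩
        rcases List.mem_cons.1 hc with rfl | hc
        · refine ⟨fun x hx => ?_, fun x hx => ?_⟩
          · have := List.single_le_sum (by simp) x hx
            omega
          · have := List.single_le_sum (by simp) x hx
            omega
        · refine ⟨fun x hx => ?_, fun x hx => ?_⟩
          · have := (hN c hc).1 x hx; omega
          · have := (hN c hc).2 x hx; omega
    obtain ⟨N, hN⟩ := hN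
    refine ⟨N, hN, fun m _ => ?_⟩
    obtain ⟨c, hc, h1, h2⟩ := h {x | bt m x = 1}
    exact ⟨c, hc, h1, h2⟩
  · rintro ⟨N, hN, h⟩ X
    obtain ⟨m, hm, hb⟩ := exists_bits X N
    obtain ⟨c, hc, h1, h2⟩ := h m hm
    refine ⟨c, hc, fun x hx => (hb x ((hN c hc).1 x hx)).1 (h1 x hx), fun x hx hX => ?_⟩
    exact h2 x hx ((hb x ((hN c hc).2 x hx)).2 hX)

theorem re_cov : REPred Cov := by
  have h : REPred fun L : List Info => ∃ N : ℕ,
      (∀ c ∈ L, (∀ x ∈ c.1, x < N) ∧ ∀ x ∈ c.2, x < N) ∧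
      ∀ m < 2 ^ N, ∃ c ∈ L, (∀ x ∈ c.1, bt m x = 1) ∧ ∀ x ∈ c.2, bt m x ≠ 1 := by
    refine RE.ex (p := fun (L : List Info) (N : ℕ) =>
      (∀ c ∈ L, (∀ x ∈ c.1, x < N) ∧ ∀ x ∈ c.2, x < N) ∧
      ∀ m < 2 ^ N, ∃ c ∈ L, (∀ x ∈ c.1, bt m x = 1) ∧ ∀ x ∈ c.2, bt m x ≠ 1) ?_
    refine RE.and ?_ ?_
    · refine RE.all_mem (p := fun (y : List Info × ℕ) (c : Info) =>
        (∀ x ∈ c.1, x < y.2) ∧ ∀ x ∈ c.2, x < y.2) (l := fun y => y.1) ?_ (by fun_prop)
      refine RE.and ?_ ?_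
      · exact RE.all_mem (p := fun (y : (List Info × ℕ) × Info) (x : ℕ) => x < y.1.2)
          (l := fun y => y.2.1) (RE.lt (by fun_prop) (by fun_prop)) (by fun_prop)
      · exact RE.all_mem (p := fun (y : (List Info × ℕ) × Info) (x : ℕ) => x < y.1.2)
          (l := fun y => y.2.2) (RE.lt (by fun_prop) (by fun_prop)) (by fun_prop)
    · refine RE.all_lt (p := fun (y : List Info × ℕ) (m : ℕ) =>
        ∃ c ∈ y.1, (∀ x ∈ c.1, bt m x = 1) ∧ ∀ x ∈ c.2, bt m x ≠ 1) ?_
        (computable_pow2.comp (by fun_prop))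
      refine RE.ex_mem (p := fun (y : (List Info × ℕ) × ℕ) (c : Info) =>
        (∀ x ∈ c.1, bt y.2 x = 1) ∧ ∀ x ∈ c.2, bt y.2 x ≠ 1) (l := fun y => y.1.1) ?_
        (by fun_prop)
      refine RE.and ?_ ?_
      · exact RE.all_mem (p := fun (y : ((List Info × ℕ) × ℕ) × Info) (x : ℕ) => bt y.1.2 x = 1)
          (l := fun y => y.2.1) (RE.eq (computable_bt.comp (by fun_prop) (by fun_prop))
            (by fun_prop)) (by fun_prop)
      · exact RE.all_mem (p := fun (y : ((List Info × ℕ) × ℕ) × Info) (x : ℕ) => bt y.1.2 x ≠ 1)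
          (l := fun y => y.2.2) (RE.ne (computable_bt.comp (by fun_prop) (by fun_prop))
            (by fun_prop)) (by fun_prop)
  exact h.of_eq fun L => (cov_iff L).symm

theorem exists_cov {S : Info → Prop} (h : ∀ X : Set ℕ, ∃ c, S c ∧ Ok X c) :
    ∃ L : List Info, (∀ c ∈ L, S c) ∧ Cov L := by
  classical
  let U : Info → Set (ℕ → Bool) := fun c => {x | S c ∧ Ok {n | x n = true} c}
  have hU : ∀ c, IsOpen (U c) := by
    intro c
    by_cases hS : S c
    · have : U c = (⋂ n ∈ c.1.toFinset, {x : ℕ → Bool | x n = true}) ∩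
          ⋂ n ∈ c.2.toFinset, {x : ℕ → Bool | x n = false} := by
        ext x
        simp [U, hS, Ok]
      rw [this]
      refine IsOpen.inter ?_ ?_
      · refine isOpen_biInter_finset fun n _ => ?_
        exact IsOpen.preimage (f := fun x : ℕ → Bool => x n) (continuous_apply n)
          (isOpen_discrete ({true} : Set Bool))
      · refine isOpen_biInter_finset fun n _ => ?_
        exact IsOpen.preimage (f := fun x : ℕ → Bool => x n) (continuous_apply n)
          (isOpen_discrete ({false} : Set Bool))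
    · have : U c = ∅ := by
        ext x
        simp [U, hS]
      rw [this]
      exact isOpen_empty
  have hcov : (Set.univ : Set (ℕ → Bool)) ⊆ ⋃ c, U c := by
    intro x _
    obtain ⟨c, h1, h2⟩ := h {n | x n = true}
    exact Set.mem_iUnion.2 ⟨c, h1, h2⟩
  obtain ⟨t, ht⟩ := isCompact_univ.elim_finite_subcover U hU hcov
  refine ⟨(t.filter fun c => S c).toList, fun c hc => ?_, fun X => ?_⟩
  · rw [Finset.mem_toList, Finset.mem_filter] at hc
    exact hc.2
  · have h1 := ht (Set.mem_univ fun n => decide (n ∈ X))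
    rw [Set.mem_iUnion₂] at h1
    obtain ⟨c, hc, h2, h3⟩ := h1
    refine ⟨c, by rw [Finset.mem_toList, Finset.mem_filter]; exact ⟨hc, h2⟩, ?_⟩
    simpa using h3

/-- **Compactness.** -/
theorem R2.forall_set {P : α → Set ℕ → Prop} (h : R2 Z P) : REIn Z fun a => ∀ X, P a X := by
  obtain ⟨S, hS, h1⟩ := h
  have h2 : REIn Z fun a => ∃ L : List Info, (∀ c ∈ L, S a c) ∧ Cov L := by
    refine REIn.ex (S := fun a (L : List Info) => (∀ c ∈ L, S a c) ∧ Cov L) ?_
    refine REIn.and ?_ (REIn.of_re (RE.comp re_cov (by fun_prop)))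
    exact REIn.all_mem (S := fun (x : α × List Info) (c : Info) => S x.1 c)
      (hS.comp (f := fun x : (α × List Info) × Info => (x.1.1, x.2)) (by fun_prop)) (by fun_prop)
  refine h2.of_eq fun a => ?_
  constructor
  · rintro ⟨L, h3, h4⟩ X
    obtain ⟨c, hc, hok⟩ := h4 X
    exact (h1 a X).2 ⟨c, h3 c hc, hok⟩
  · intro h3
    exact exists_cov fun X => (h1 a X).1 (h3 X)

end Pool.Agent.KS6_47.PR
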