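import Pool.Agent.KS6_47.PR.Path

/-!
Finite Ramsey theory and the ultrafilter.
-/

set_option autoImplicit false

namespace Pool.Agent.KS6_47.PR

open Encodable Pool.Agent.Helper446 Pool.Agent.Helper446.Defs Pool.Agent.Helper446.RE
  Pool.Agent.Helper446.Oracle Pool.Agent.R623.Dec

/-- `w → (m)^2_r` -/
def Arr (w m r : ℕ) : Prop :=
  ∀ (X : Finset ℕ) (f : ℕ → ℕ → Fin r), X.card = w → ∃ H ⊆ X, H.card = m ∧
    ∃ i, ∀ x ∈ H, ∀ y ∈ H, x < y → f x y = i

theorem endhom {r : ℕ} (hr : 2 ≤ r) (f : ℕ → ℕ → Fin r) (L : ℕ) : ∀ X : Finset ℕ,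
    r ^ L ≤ X.card → ∃ A ⊆ X, A.card = L ∧ ∃ χ : ℕ → Fin r, ∀ x ∈ A, ∀ y ∈ A, x < y →
      f x y = χ x := by
  classical
  induction L with
  | zero =>
    intro X _
    exact ⟨∅, Finset.empty_subset _, rfl, fun _ => ⟨0, by omega⟩, fun x hx => by simp at hx⟩
  | succ L ih =>
    intro X hX
    have hne : X.Nonempty := by
      rw [← Finset.card_pos]
      exact lt_of_lt_of_le (by positivity) hX
    set x := X.min' hne with hx
    have hxX : x ∈ X := X.min'_mem hne
    obtain ⟨i, hi⟩ : ∃ i : Fin r, r ^ L ≤ ((X.erase x).filter fun y => f x y = i).card := by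
      by_contra hcon
      push Not at hcon
      have h1 : (X.erase x).card = ∑ i : Fin r, ((X.erase x).filter fun y => f x y = i).card :=
        Finset.card_eq_sum_card_fiberwise fun y _ => Finset.mem_coe.2 (Finset.mem_univ _)
      have h2 : (∑ i : Fin r, ((X.erase x).filter fun y => f x y = i).card) ≤
          ∑ i : Fin r, (r ^ L - 1) := Finset.sum_le_sum fun i _ => by
        have := hcon i
        omega
      rw [Finset.sum_const, Finset.card_univ, Fintype.card_fin, smul_eq_mul] at h2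
      rw [Finset.card_erase_of_mem hxX] at h1
      have h3 : r * (r ^ L - 1) = r ^ (L + 1) - r := by
        rw [Nat.mul_sub, pow_succ, mul_one, mul_comm]
      have h4 : r ≤ r ^ (L + 1) := by
        calc r = r ^ 1 := (pow_one r).symm
          _ ≤ r ^ (L + 1) := Nat.pow_le_pow_right (by omega) (by omega)
      omega
    obtain ⟨A, hA1, hA2, χ, hχ⟩ := ih _ hi
    have hAX : ∀ y ∈ A, y ∈ X ∧ y ≠ x ∧ f x y = i := by
      intro y hy
      have := hA1 hy
      rw [Finset.mem_filter, Finset.mem_erase] at this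
      exact ⟨this.1.2, this.1.1, this.2⟩
    have hxA : x ∉ A := fun h => (hAX x h).2.1 rfl
    have hmin : ∀ y ∈ A, x < y := fun y hy =>
      lt_of_le_of_ne (X.min'_le y (hAX y hy).1) (Ne.symm (hAX y hy).2.1)
    refine ⟨insert x A, ?_, ?_, Function.update χ x i, ?_⟩
    · intro y hy
      rcases Finset.mem_insert.1 hy with rfl | hy
      · exact hxX
      · exact (hAX y hy).1
    · rw [Finset.card_insert_of_notMem hxA, hA2]
    · intro u hu v hv huv
      rcases Finset.mem_insert.1 hu with rfl | hu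
      · rw [Function.update_self]
        rcases Finset.mem_insert.1 hv with rfl | hv
        · exact absurd huv (lt_irrefl _)
        · exact (hAX v hv).2.2
      · have hux : u ≠ x := (hAX u hu).2.1
        rw [Function.update_of_ne hux]
        rcases Finset.mem_insert.1 hv with rfl | hv
        · exact absurd huv (by have := hmin u hu; omega)
        · exact hχ u hu v hv huv

theorem ramsey {r : ℕ} (hr : 2 ≤ r) (m : ℕ) {w : ℕ} (hw : r ^ (r * m) ≤ w) : Arr w m r := by
  classical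
  intro X f hX
  obtain ⟨A, hA1, hA2, χ, hχ⟩ := endhom hr f (r * m) X (hX ▸ hw)
  have : Nonempty (Fin r) := ⟨⟨0, by omega⟩⟩
  obtain ⟨i, _, hi⟩ := Finset.exists_le_card_fiber_of_mul_le_card_of_maps_to (s := A)
    (t := (Finset.univ : Finset (Fin r))) (f := χ) (n := m) (fun a _ => Finset.mem_univ _)
    Finset.univ_nonempty (by
      rw [Finset.card_univ, Fintype.card_fin, hA2])
  obtain ⟨H, hH1, hH2⟩ := Finset.exists_subset_card_eq hi
  refine ⟨H, fun x hx => hA1 (Finset.mem_filter.1 (hH1 hx)).1, hH2, i, fun x hx y hy hxy => ?_⟩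
  have h1 := Finset.mem_filter.1 (hH1 hx)
  rw [hχ x h1.1 y (Finset.mem_filter.1 (hH1 hy)).1 hxy, h1.2]

/-- a slow function -/
def gsl (r w : ℕ) : ℕ := Nat.log r w / r

theorem arr_gsl {r : ℕ} (hr : 2 ≤ r) (w : ℕ) : Arr w (gsl r w) r := by
  rcases Nat.eq_zero_or_pos w with rfl | hw
  · intro X f _
    refine ⟨∅, Finset.empty_subset _, ?_, ⟨0, by omega⟩, fun x hx => by simp at hx⟩
    simp [gsl]
  · refine ramsey hr _ ?_
    refine (Nat.pow_le_pow_right (by omega) ?_).trans (Nat.pow_log_le_self r (by omega))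
    exact Nat.mul_div_le _ _

theorem gsl_unb {r : ℕ} (hr : 2 ≤ r) (n w : ℕ) (hw : r ^ (r * n) ≤ w) : n ≤ gsl r w := by
  unfold gsl
  rw [Nat.le_div_iff_mul_le (by omega)]
  refine Nat.le_log_of_pow_le (by omega) ?_
  rwa [mul_comm n r]

theorem computable_powc (r : ℕ) : Computable fun x : ℕ => r ^ x := by
  have h := Computable.nat_rec (f := fun x : ℕ => x) (g := fun _ : ℕ => 1)
    (h := fun (_ : ℕ) (y : ℕ × ℕ) => r * y.2) Computable.id (Computable.const 1)
    ((Primrec.nat_mul.comp (Primrec.const r) (Primrec.snd.comp Primrec.snd)).to_comp)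
  refine h.of_eq fun n => ?_
  induction n with
  | zero => rfl
  | succ n ih =>
    simp only [] at ih ⊢
    rw [pow_succ, ← ih, mul_comm]

theorem re_gsl {r : ℕ} (hr : 2 ≤ r) : REPred fun p : ℕ × ℕ => gsl r p.1 = p.2 := by
  have hp := computable_powc r
  have hdiv : Computable fun v : ℕ => v / r :=
    (Primrec.nat_div.comp Primrec.id (Primrec.const r)).to_comp
  have h1 : REPred fun p : ℕ × ℕ => ∃ v : ℕ, ((r ^ v ≤ p.1 ∧ p.1 < r ^ (v + 1)) ∨
      (p.1 = 0 ∧ v = 0)) ∧ v / r = p.2 := by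
    refine RE.ex (p := fun (p : ℕ × ℕ) (v : ℕ) => ((r ^ v ≤ p.1 ∧ p.1 < r ^ (v + 1)) ∨
      (p.1 = 0 ∧ v = 0)) ∧ v / r = p.2) ?_
    refine RE.and (RE.or (RE.and ?_ ?_) (RE.and ?_ ?_)) ?_
    · exact RE.le (hp.comp (by fun_prop)) (by fun_prop)
    · exact RE.lt (by fun_prop) (hp.comp (by fun_prop))
    · exact RE.eq (by fun_prop) (by fun_prop)
    · exact RE.eq (by fun_prop) (by fun_prop)
    · exact RE.eq (hdiv.comp (by fun_prop)) (by fun_prop)
  refine h1.of_eq fun p => ?_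
  unfold gsl
  constructor
  · rintro ⟨v, (⟨h1, h2⟩ | ⟨h1, h2⟩), h3⟩
    · rw [(Nat.log_eq_iff (Or.inr ⟨by omega, by
        have : 0 < r ^ v := by positivity
        omega⟩)).2 ⟨h1, h2⟩]
      exact h3
    · rw [h1, Nat.log_zero_right, ← h2]
      exact h3
  · intro h
    refine ⟨Nat.log r p.1, ?_, h⟩
    rcases Nat.eq_zero_or_pos p.1 with h0 | h0
    · exact Or.inr ⟨h0, by rw [h0, Nat.log_zero_right]⟩
    · exact Or.inl ⟨Nat.pow_log_le_self r (by omega), Nat.lt_pow_succ_log_self (by omega) _⟩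

/-- `X` contains large homogeneous sets below infinitely many bounds -/
def Lg {k : ℕ} (c : ℕ → ℕ → Fin k) (psi : ℕ → ℕ) (X : Set ℕ) : Prop :=
  ∀ w0, ∃ w, w0 < w ∧ ∃ B : Finset ℕ, (∀ x ∈ B, x ∈ X) ∧ (∀ x ∈ B, x ≤ w) ∧
    psi w ≤ B.card ∧ ∃ i, ∀ x ∈ B, ∀ y ∈ B, x < y → c x y = i

theorem exists_ultra {k : ℕ} (c : ℕ → ℕ → Fin k) (psi : ℕ → ℕ) (harr : ∀ w, Arr w (psi w) (k + 1))
    (hunb : ∀ n, ∃ w0, ∀ w, w0 ≤ w → n < psi w) :
    ∃ U : Ultrafilter ℕ, (∀ X ∈ U, Lg c psi X) ∧ ∀ n, {y | n < y} ∈ U := by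
  classical
  let S : Set (Set ℕ) := {T | ¬ Lg c psi Tᶜ}
  have hfip : (Filter.generate S).NeBot := by
    rw [Filter.generate_neBot_iff]
    intro t ht hfin
    by_contra hcon
    rw [Set.not_nonempty_iff_eq_empty] at hcon
    have h1 : ∀ x : ℕ, ∃ T ∈ t, x ∉ T := by
      intro x
      by_contra h2
      push Not at h2
      have : x ∈ ⋂₀ t := h2
      rw [hcon] at this
      exact this
    choose p hp1 hp2 using h1
    have h2 : ∀ T : Set ℕ, ∃ w0, T ∈ t → ∀ w, w0 < w → ¬ ∃ B : Finset ℕ, (∀ x ∈ B, x ∈ Tᶜ) ∧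
        (∀ x ∈ B, x ≤ w) ∧ psi w ≤ B.card ∧ ∃ i, ∀ x ∈ B, ∀ y ∈ B, x < y → c x y = i := by
      intro T
      by_cases hT : T ∈ t
      · have h3 := ht hT
        simp only [S, Lg, Set.mem_ofPred_eq, not_forall] at h3
        obtain ⟨w0, h3⟩ := h3
        refine ⟨w0, fun _ w hw hB => h3 ⟨w, hw, hB⟩⟩
      · exact ⟨0, fun h => absurd h hT⟩
    choose w0 hw0 using h2
    obtain ⟨w1, hw1⟩ := hunb hfin.toFinset.card
    obtain ⟨w, hw⟩ : ∃ w, w = (∑ T ∈ hfin.toFinset, w0 T) + w1 + 1 := ⟨_, rfl⟩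
    have hpsi : hfin.toFinset.card < psi w := hw1 w (by omega)
    have hall : ∀ T ∈ t, w0 T < w := by
      intro T hT
      have := Finset.single_le_sum (f := w0) (fun _ _ => Nat.zero_le _) (hfin.mem_toFinset.2 hT)
      omega
    let f : ℕ → ℕ → Fin (k + 1) := fun x y => if p x = p y then (c x y).castSucc else Fin.last k
    obtain ⟨H, hH1, hH2, i, hi⟩ := harr w (Finset.Icc 1 w) f (by simp)
    rcases Fin.eq_castSucc_or_eq_last i with ⟨i', rfl⟩ | rfl
    · -- one piece
      have hne : H.Nonempty := by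
        rw [← Finset.card_pos]
        omega
      obtain ⟨x0, hx0⟩ := hne
      have h3 : ∀ x ∈ H, ∀ y ∈ H, x < y → p x = p y ∧ c x y = i' := by
        intro x hx y hy hxy
        have h4 := hi x hx y hy hxy
        simp only [f] at h4
        split_ifs at h4 with h5
        · exact ⟨h5, Fin.castSucc_injective _ h4⟩
        · exact absurd h4.symm (Fin.castSucc_lt_last i').ne
      have h4 : ∀ x ∈ H, p x = p x0 := by
        intro x hx
        rcases lt_trichotomy x x0 with h | h | h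
        · exact (h3 x hx x0 hx0 h).1
        · rw [h]
        · exact (h3 x0 hx0 x hx h).1.symm
      refine hw0 (p x0) (hp1 x0) w (hall _ (hp1 x0)) ⟨H, fun x hx => ?_, fun x hx => ?_, hH2.ge,
        i', fun x hx y hy hxy => (h3 x hx y hy hxy).2⟩
      · rw [← h4 x hx]
        exact hp2 x
      · exact (Finset.mem_Icc.1 (hH1 hx)).2
    · -- different pieces
      have h3 : ∀ x ∈ H, ∀ y ∈ H, x < y → p x ≠ p y := by
        intro x hx y hy hxy he
        have h4 := hi x hx y hy hxy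
        simp only [f, if_pos he] at h4
        exact (Fin.castSucc_lt_last _).ne h4
      have h4 : H.card ≤ hfin.toFinset.card := by
        refine Finset.card_le_card_of_injOn p (fun x _ => Finset.mem_coe.2
          (hfin.mem_toFinset.2 (hp1 x))) ?_
        intro x hx y hy he
        rcases lt_trichotomy x y with h | h | h
        · exact absurd he (h3 x hx y hy h)
        · exact h
        · exact absurd he.symm (h3 y hy x hx h)
      omega
  let U := Ultrafilter.of (Filter.generate S)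
  have hU : ∀ X ∈ U, Lg c psi X := by
    intro X hX
    by_contra hcon
    have h1 : Xᶜ ∈ S := by
      show ¬ Lg c psi Xᶜᶜ
      rwa [compl_compl]
    have h2 : Xᶜ ∈ U := Ultrafilter.of_le _ (Filter.mem_generate_of_mem h1)
    exact (Ultrafilter.compl_mem_iff_notMem.1 h2) hX
  refine ⟨U, hU, fun n => ?_⟩
  by_contra hcon
  have h1 : {y | n < y}ᶜ ∈ U := Ultrafilter.compl_mem_iff_notMem.2 hcon
  obtain ⟨w0, hw0⟩ := hunb (n + 1)
  obtain ⟨w, hw, B, hB1, _, hB3, _⟩ := hU _ h1 w0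
  have h2 := hw0 w hw.le
  have h3 : B ⊆ Finset.range (n + 1) := by
    intro x hx
    have := hB1 x hx
    simp only [Set.mem_compl_iff, Set.mem_ofPred_eq, not_lt] at this
    rw [Finset.mem_range]
    omega
  have h4 := Finset.card_le_card h3
  rw [Finset.card_range] at h4
  omega

/-- **The instance.** -/
theorem exists_inst {Z : Set ℕ} {k : ℕ} (c : ℕ → ℕ → Fin k) (phi : ℕ → ℕ)
    (hc : REIn Z fun p : (ℕ × ℕ) × Fin k => c p.1.1 p.1.2 = p.2)
    (hphi : REIn Z fun p : ℕ × ℕ => phi p.1 = p.2) (harr : ∀ w, Arr w (phi w) (k + 1)) :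
    ∃ I : Inst Z k, I.c = c ∧ ∀ w, phi w ≤ I.psi w := by
  have hk : 2 ≤ k + 1 := by
    have := (c 0 0).2
    omega
  obtain ⟨U, hU1, hU2⟩ := exists_ultra c (fun w => max (phi w) (gsl (k + 1) w)) (fun w => by
    rcases max_choice (phi w) (gsl (k + 1) w) with h | h
    · rw [h]; exact harr w
    · rw [h]; exact arr_gsl hk w) (fun n => ⟨(k + 1) ^ ((k + 1) * (n + 1)), fun w hw =>
      lt_of_lt_of_le (Nat.lt_succ_self n) ((gsl_unb hk (n + 1) w hw).trans (le_max_right _ _))⟩)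
  have hj : ∀ x, ∃ i : Fin k, {y | c x y = i} ∈ U := by
    intro x
    have h1 : (⋃ i ∈ (Set.univ : Set (Fin k)), {y | c x y = i}) ∈ U := by
      have : (⋃ i ∈ (Set.univ : Set (Fin k)), {y | c x y = i}) = Set.univ := by
        ext y
        simp
      rw [this]
      exact Filter.univ_mem
    rw [Ultrafilter.finite_biUnion_mem_iff Set.finite_univ] at h1
    obtain ⟨i, _, hi⟩ := h1
    exact ⟨i, hi⟩
  choose j hj using hj
  have hpsi : REIn Z fun p : ℕ × ℕ => max (phi p.1) (gsl (k + 1) p.1) = p.2 := by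
    have h1 : REIn Z fun p : ℕ × ℕ => ∃ x : ℕ × ℕ, phi p.1 = x.1 ∧ gsl (k + 1) p.1 = x.2 ∧
        max x.1 x.2 = p.2 := by
      refine REIn.ex (S := fun (p x : ℕ × ℕ) => phi p.1 = x.1 ∧ gsl (k + 1) p.1 = x.2 ∧
        max x.1 x.2 = p.2) ?_
      refine REIn.and ?_ (REIn.and (REIn.of_re ?_) (REIn.of_re (RE.eq (by fun_prop)
        (by fun_prop))))
      · exact hphi.comp (f := fun y : (ℕ × ℕ) × (ℕ × ℕ) => (y.1.1, y.2.1)) (by fun_prop)
      · exact RE.comp (re_gsl hk) (f := fun y : (ℕ × ℕ) × (ℕ × ℕ) => (y.1.1, y.2.2))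
          (by fun_prop)
    refine h1.of_eq fun p => ?_
    constructor
    · rintro ⟨x, h2, h3, h4⟩
      rw [h2, h3, h4]
    · intro h
      exact ⟨(_, _), rfl, rfl, h⟩
  exact ⟨⟨c, fun w => max (phi w) (gsl (k + 1) w), hc, hpsi, U, hU1, j, hj, hU2⟩, rfl,
    fun w => le_max_left _ _⟩

end Pool.Agent.KS6_47.PR
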