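import Pool.Agent.KS6_47.PR.Cond

/-!
The density lemma.
-/

set_option autoImplicit false

namespace Pool.Agent.KS6_47.PR

open Encodable Pool.Agent.Helper446 Pool.Agent.Helper446.Defs Pool.Agent.Helper446.RE
  Pool.Agent.Helper446.Oracle Pool.Agent.R623.Dec

variable {Z : Set ℕ} {k : ℕ} {I : Inst Z k} {ι ι' ι'' : Type}

/-- the cover of the part `ν` coded by `u` -/
def cv [Encodable ι] (ν : ι) (j : Fin k) (u : Set ℕ) : Set ℕ := colm (1 + encode (ν, j)) u

theorem cf_cv [Encodable ι] (ν : ι) (j : Fin k) : CF Z (cv (k := k) ν j) := cf_colm _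

/-- `u` codes no member of the class with covers which are good for `p` -/
def Q [Encodable ι] (q : Rq Z k) (c : Cond I ι) (p : List (ℕ × Bool)) (u : Set ℕ) : Prop :=
  colm 0 u ∉ c.C ∨
  (∃ ν : ι, ∃ x : ℕ, ∀ j : Fin k, x ∉ cv ν j u) ∨
  (∃ z : ι × (Fin k × Fin k), Dead c z.1 z.2 ∧ ∃ b : Blk, I.IsBlk z.2.1 b ∧ c.t < b.1 ∧
    ∀ x ∈ b.2, x ∈ cv z.1 z.2.2 u ∧ x ∈ c.X z.1 (colm 0 u) ∧ I.Rt c.t x) ∨
  ∃ z : ι × (Fin k × Fin k), (¬ Done q c z.1 ∧ ¬ Dead c z.1 z.2) ∧ ∃ E : List Blk,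
    I.VE z.2.1 z.2.2 c.t E ∧
    (∀ b ∈ E, ∀ x ∈ b.2, x ∈ cv z.1 z.2.2 u ∧ x ∈ c.X z.1 (colm 0 u) ∧ I.Rt c.t x) ∧
    ∃ y ∈ p, ∃ d : Info, q.Γ z.2 (y.1, !y.2) d ∧ Ok (el (c.F z.1 z.2 ++ E)) d

theorem re_el {F : List Blk} : REPred fun x : List Blk × Info => Ok (el (F ++ x.1)) x.2 := by
  have h1 : REPred fun x : List Blk × Info => (∀ y ∈ x.2.1, ∃ b ∈ F ++ x.1, y ∈ b.2) ∧
      ∀ y ∈ x.2.2, ∀ b ∈ F ++ x.1, y ∉ b.2 := by
    refine RE.and ?_ ?_
    · refine RE.all_mem (p := fun (x : List Blk × Info) (y : ℕ) => ∃ b ∈ F ++ x.1, y ∈ b.2)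
        (l := fun x => x.2.1) ?_ (by fun_prop)
      refine RE.ex_mem (p := fun (z : (List Blk × Info) × ℕ) (b : Blk) => z.2 ∈ b.2)
        (l := fun z => F ++ z.1.1) ?_ (by fun_prop)
      exact RE.mem_list (by fun_prop) (by fun_prop)
    · refine RE.all_mem (p := fun (x : List Blk × Info) (y : ℕ) => ∀ b ∈ F ++ x.1, y ∉ b.2)
        (l := fun x => x.2.2) ?_ (by fun_prop)
      refine RE.all_mem (p := fun (z : (List Blk × Info) × ℕ) (b : Blk) => z.2 ∉ b.2)
        (l := fun z => F ++ z.1.1) ?_ (by fun_prop)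
      exact RE.not_mem_list (by fun_prop) (by fun_prop)
  refine h1.of_eq fun x => ?_
  unfold Ok el
  simp only [Set.mem_ofPred_eq, not_exists, not_and]

theorem r2_Q [Finite ι] [Encodable ι] (q : Rq Z k) (c : Cond I ι) : R2 Z (Q q c) := by
  refine R2.or (c.hC.sub (cf_colm 0)) (R2.or ?_ (R2.or ?_ ?_))
  · refine R2.ex_fin fun ν => ?_
    refine R2.ex (S := fun (_ : List (ℕ × Bool)) (x : ℕ) u => ∀ j : Fin k, x ∉ cv ν j u) ?_
    refine R2.all_fin (P := fun (j : Fin k) (y : List (ℕ × Bool) × ℕ) u => y.2 ∉ cv ν j u)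
      fun j => ?_
    exact (cf_cv ν j).2.comp (f := fun y : List (ℕ × Bool) × ℕ => y.2) (by fun_prop)
  · refine R2.ex_fin fun z => ?_
    refine R2.and (R2.const _) ?_
    refine R2.ex (S := fun (_ : List (ℕ × Bool)) (b : Blk) u => I.IsBlk z.2.1 b ∧ c.t < b.1 ∧
      ∀ x ∈ b.2, x ∈ cv z.1 z.2.2 u ∧ x ∈ c.X z.1 (colm 0 u) ∧ I.Rt c.t x) ?_
    refine R2.and (R2.of_re ((I.re_isBlk _).comp (f := fun y : List (ℕ × Bool) × Blk => y.2)
      (by fun_prop))) (R2.and (R2.of_re (REIn.of_re (RE.lt (by fun_prop) (by fun_prop)))) ?_)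
    refine R2.all_mem (S := fun (_ : List (ℕ × Bool) × Blk) (x : ℕ) u => x ∈ cv z.1 z.2.2 u ∧
      x ∈ c.X z.1 (colm 0 u) ∧ I.Rt c.t x) (l := fun y => y.2.2) ?_ (by fun_prop)
    refine R2.and ?_ (R2.and ?_ ?_)
    · exact (cf_cv z.1 z.2.2).1.comp (f := fun y : (List (ℕ × Bool) × Blk) × ℕ => y.2)
        (by fun_prop)
    · exact ((c.hX z.1).comp (cf_colm 0)).1.comp
        (f := fun y : (List (ℕ × Bool) × Blk) × ℕ => y.2) (by fun_prop)
    · exact (I.re_Rt c.t).comp (f := fun y : (List (ℕ × Bool) × Blk) × ℕ => y.2) (by fun_prop)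
  · refine R2.ex_fin fun z => ?_
    refine R2.and (R2.const _) ?_
    refine R2.ex (S := fun (p : List (ℕ × Bool)) (E : List Blk) u => I.VE z.2.1 z.2.2 c.t E ∧
      (∀ b ∈ E, ∀ x ∈ b.2, x ∈ cv z.1 z.2.2 u ∧ x ∈ c.X z.1 (colm 0 u) ∧ I.Rt c.t x) ∧
      ∃ y ∈ p, ∃ d : Info, q.Γ z.2 (y.1, !y.2) d ∧ Ok (el (c.F z.1 z.2 ++ E)) d) ?_
    refine R2.and (R2.of_re ((I.re_VE _ _ _).comp
      (f := fun y : List (ℕ × Bool) × List Blk => y.2) (by fun_prop))) (R2.and ?_ ?_)
    · refine R2.all_mem (S := fun (_ : List (ℕ × Bool) × List Blk) (b : Blk) u =>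
        ∀ x ∈ b.2, x ∈ cv z.1 z.2.2 u ∧ x ∈ c.X z.1 (colm 0 u) ∧ I.Rt c.t x)
        (l := fun y => y.2) ?_ (by fun_prop)
      refine R2.all_mem (S := fun (_ : (List (ℕ × Bool) × List Blk) × Blk) (x : ℕ) u =>
        x ∈ cv z.1 z.2.2 u ∧ x ∈ c.X z.1 (colm 0 u) ∧ I.Rt c.t x)
        (l := fun y => y.2.2) ?_ (by fun_prop)
      refine R2.and ?_ (R2.and ?_ ?_)
      · exact (cf_cv z.1 z.2.2).1.comp
          (f := fun y : ((List (ℕ × Bool) × List Blk) × Blk) × ℕ => y.2) (by fun_prop)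
      · exact ((c.hX z.1).comp (cf_colm 0)).1.comp
          (f := fun y : ((List (ℕ × Bool) × List Blk) × Blk) × ℕ => y.2) (by fun_prop)
      · exact (I.re_Rt c.t).comp
          (f := fun y : ((List (ℕ × Bool) × List Blk) × Blk) × ℕ => y.2) (by fun_prop)
    · refine R2.of_re ?_
      have h1 : REIn Z fun x : List (ℕ × Bool) × List Blk => ∃ y : ℕ × Bool, y ∈ x.1 ∧
          ∃ d : Info, q.Γ z.2 (y.1, !y.2) d ∧ Ok (el (c.F z.1 z.2 ++ x.2)) d := by
        refine REIn.ex (S := fun (x : List (ℕ × Bool) × List Blk) (y : ℕ × Bool) => y ∈ x.1 ∧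
          ∃ d : Info, q.Γ z.2 (y.1, !y.2) d ∧ Ok (el (c.F z.1 z.2 ++ x.2)) d) ?_
        refine REIn.and (REIn.of_re (RE.mem_list (by fun_prop) (by fun_prop))) ?_
        refine REIn.ex (S := fun (w : (List (ℕ × Bool) × List Blk) × (ℕ × Bool)) (d : Info) =>
          q.Γ z.2 (w.2.1, !w.2.2) d ∧ Ok (el (c.F z.1 z.2 ++ w.1.2)) d) ?_
        refine REIn.and ?_ (REIn.of_re ?_)
        · exact (q.hΓ z.2).comp (f := fun w : ((List (ℕ × Bool) × List Blk) × (ℕ × Bool)) × Info =>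
            ((w.1.2.1, !w.1.2.2), w.2)) (by fun_prop)
        · exact RE.comp (re_el (F := c.F z.1 z.2))
            (f := fun w : ((List (ℕ × Bool) × List Blk) × (ℕ × Bool)) × Info =>
            (w.1.1.2, w.2)) (by fun_prop)
      exact h1

/-- In a minimal condition, no correct valuation is excluded. -/
theorem not_correct [Fintype ι] [Encodable ι] {q : Rq Z k} {c : Cond I ι}
    (hmin : ∀ c', Ext0 c' c → meas q c ≤ meas q c') (p : List (ℕ × Bool))
    (h : ∀ u, Q q c p u) : ¬ Correct p := by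
  classical
  intro hp
  obtain ⟨Y, hY⟩ := c.hne
  let cols : ℕ → Set ℕ := fun n => if n = 0 then Y else
    {x | ∃ (ν : ι) (j : Fin k), n = 1 + encode (ν, j) ∧ I.j x = j}
  have h0 : colm 0 (ofCols cols) = Y := by
    rw [colm_ofCols]
    simp only [cols, if_true]
  have h1 : ∀ (ν : ι) (j : Fin k), cv ν j (ofCols cols) = {x | I.j x = j} := by
    intro ν j
    unfold cv
    rw [colm_ofCols]
    simp only [cols]
    rw [if_neg (by omega)]
    ext x
    simp only [Set.mem_ofPred_eq]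
    constructor
    · rintro ⟨ν', j', he, hj⟩
      have he : encode (ν, j) = encode (ν', j') := by omega
      have he := encode_injective he
      rw [Prod.mk.injEq] at he
      rw [he.2]
      exact hj
    · intro hj
      exact ⟨ν, j, rfl, hj⟩
  rcases h (ofCols cols) with h2 | ⟨ν, x, h2⟩ | ⟨⟨ν, σ⟩, hD, b, hb, htb, hx⟩ |
    ⟨⟨ν, σ⟩, ⟨hnd, hlive⟩, E, hE, hel, y, hy, d, hd, hok⟩
  · rw [h0] at h2
    exact h2 hY
  · have := h2 (I.j x)
    rw [h1] at this
    exact this rfl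
  · simp only [h0, h1] at hx
    exact hD Y hY b hb htb (fun x hx' => (hx x hx').2) fun x hx' => (hx x hx').1
  · simp only [h0, h1] at hel
    simp only at hE hd hok hnd hlive
    -- bound
    have hT : ∃ T, c.t ≤ T ∧ (∀ b ∈ E, b.1 ≤ T ∧ ∀ x ∈ b.2, x ≤ T) ∧ ∀ x ∈ d.2, x ≤ T := by
      refine ⟨c.t + (E.map Prod.fst).sum + (E.flatMap Prod.snd).sum + d.2.sum, by omega,
        fun b hb => ⟨?_, fun x hx => ?_⟩, fun x hx => ?_⟩
      · have := List.single_le_sum (by simp) b.1 (List.mem_map.2 ⟨b, hb, rfl⟩ :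
          b.1 ∈ E.map Prod.fst)
        omega
      · have := List.single_le_sum (by simp) x (List.mem_flatMap.2 ⟨b, hb, hx⟩ :
          x ∈ E.flatMap Prod.snd)
        omega
      · have := List.single_le_sum (by simp) x hx
        omega
    obtain ⟨T, hT1, hT2, hT3⟩ := hT
    obtain ⟨c', h3, h4, h5⟩ := exists_addB c ν σ E hY hE (T := T) (fun x hx => by
      obtain ⟨b, hb, hx⟩ := hx
      obtain ⟨h6, h7, h8⟩ := hel b hb x hx
      exact ⟨h7, h8, h6⟩) hT1 hT2
    have hn : q.n σ ≤ cnt (c.F ν σ) := by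
      rcases dead_of_min hmin ν σ with h | h
      · exact h
      · exact absurd h hlive
    have h6 : Done q c' ν := by
      refine ⟨σ, ?_, y.1, !y.2, d, hp y hy, hd, ?_, ?_⟩
      · rw [h5]
        exact hn.trans (cnt_append _ _)
      · rw [h5]
        exact hok
      · rw [h3]
        exact hT3
    have h7 := meas_lt_done (q := q) h4 hnd h6
    have h8 := hmin c' h4
    omega

/-- the parts of the new condition -/
abbrev NewPart (M : ℕ) (ι : Type) (k : ℕ) : Type :=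
  {z : Fin M × Fin M × ι × Fin k // z.1 ≠ z.2.1}

/-- the sets of the new condition -/
def newX [Encodable ι] (c : Cond I ι) {M : ℕ} (z : NewPart M ι k) (u : Set ℕ) : Set ℕ :=
  (cv z.1.2.2.1 z.1.2.2.2 (colm z.1.1 u) ∩ cv z.1.2.2.1 z.1.2.2.2 (colm z.1.2.1 u)) ∩
    (c.X z.1.2.2.1 (colm 0 (colm z.1.1 u)) ∩ c.X z.1.2.2.1 (colm 0 (colm z.1.2.1 u)))

/-- **The density lemma.** -/
theorem exists_step (hZ : ¬ Sep Z) [Fintype ι] [Encodable ι] (q : Rq Z k) (c : Cond I ι) :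
    ∃ (M : ℕ) (c' : Cond I (NewPart M ι k)),
      (∀ z, Ext c' z c z.1.2.2.1) ∧ ∀ z, Sat q c' z := by
  classical
  obtain ⟨c0, hc0, hmin⟩ := exists_min q c
  obtain ⟨l, hl1, hl2, hl3⟩ := val_lemma hZ (R2.forall_set (r2_Q q c0))
    (fun p hp => not_correct hmin p hp) (Fintype.card (ι × Fin k) + 1)
  obtain ⟨M, hM⟩ : ∃ M, M = Fintype.card (ι × Fin k) + 1 := ⟨_, rfl⟩
  rw [← hM] at hl2
  let pa : Fin M → List (ℕ × Bool) := fun a =>
    l.map fun n => (n, decide (n = l[(a : ℕ)]'(by rw [hl2]; exact a.2)))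
  have hpa : ∀ a, ∃ u, ¬ Q q c0 (pa a) u := by
    intro a
    have := hl3 (pa a) (by simp [pa, List.map_map, Function.comp_def])
    push Not at this
    exact this
  choose uu huu using hpa
  have hC' : R2 Z fun (_ : List (ℕ × Bool)) u =>
      u ∉ {u : Set ℕ | ∀ a : Fin M, ¬ Q q c0 (pa a) (colm a u)} := by
    have h1 : R2 Z fun (_ : List (ℕ × Bool)) u => ∃ a : Fin M, Q q c0 (pa a) (colm a u) := by
      refine R2.ex_fin (P := fun (a : Fin M) (_ : List (ℕ × Bool)) u =>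
        Q q c0 (pa a) (colm a u)) fun a => ?_
      exact ((r2_Q q c0).sub (cf_colm a)).comp (f := fun _ : List (ℕ × Bool) => pa a)
        (Computable.const _)
    refine h1.of_eq fun _ u => ?_
    simp only [Set.mem_ofPred_eq, not_forall, not_not]
  have hX' : ∀ z : NewPart M ι k, CF Z (newX c0 z) := by
    intro z
    unfold newX
    refine CF.inter (CF.inter ?_ ?_) (CF.inter ?_ ?_)
    · exact (cf_cv _ _).comp (cf_colm _)
    · exact (cf_cv _ _).comp (cf_colm _)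
    · exact (c0.hX _).comp ((cf_colm 0).comp (cf_colm _))
    · exact (c0.hX _).comp ((cf_colm 0).comp (cf_colm _))
  have hmem : ∀ u, (∀ a : Fin M, ¬ Q q c0 (pa a) (colm a u)) → ∀ a : Fin M,
      colm 0 (colm a u) ∈ c0.C ∧ (∀ (ν : ι) (x : ℕ), ∃ j : Fin k, x ∈ cv ν j (colm a u)) := by
    intro u hu a
    have h1 := hu a
    unfold Q at h1
    rw [not_or, not_or] at h1
    refine ⟨not_not.1 h1.1, fun ν x => ?_⟩
    by_contra hcon
    push Not at hcon
    exact h1.2.1 ⟨ν, x, hcon⟩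
  refine ⟨M, ⟨c0.t, {u : Set ℕ | ∀ a : Fin M, ¬ Q q c0 (pa a) (colm a u)}, newX c0,
    fun z σ => c0.F z.1.2.2.1 σ, hC', ?_, hX', ?_, fun z σ => c0.hF _ σ⟩, fun z => ?_,
    fun z => ?_⟩
  · -- nonempty
    refine ⟨ofCols fun n => if h : n < M then uu ⟨n, h⟩ else ∅, fun a => ?_⟩
    rw [colm_ofCols, dif_pos a.2]
    exact huu a
  · -- cover
    intro u hu x
    have h1 : ∀ a : Fin M, ∃ z : ι × Fin k, x ∈ c0.X z.1 (colm 0 (colm a u)) ∧
        x ∈ cv z.1 z.2 (colm a u) := by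
      intro a
      obtain ⟨h2, h3⟩ := hmem u hu a
      obtain ⟨ν, hν⟩ := c0.hcov _ h2 x
      obtain ⟨j, hj⟩ := h3 ν x
      exact ⟨(ν, j), hν, hj⟩
    choose z hz1 hz2 using h1
    obtain ⟨a, b, hab, he⟩ := Fintype.exists_ne_map_eq_of_card_lt z (by
      rw [Fintype.card_fin]; omega)
    refine ⟨⟨(a, b, z a), hab⟩, ⟨hz2 a, ?_⟩, hz1 a, ?_⟩
    · have := hz2 b
      rw [← he] at this
      exact this
    · have := hz1 b
      rw [← he] at this
      exact this
  · -- extension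
    have h1 : Ext (⟨c0.t, {u : Set ℕ | ∀ a : Fin M, ¬ Q q c0 (pa a) (colm a u)}, newX c0,
        fun z σ => c0.F z.1.2.2.1 σ, hC', by
          refine ⟨ofCols fun n => if h : n < M then uu ⟨n, h⟩ else ∅, fun a => ?_⟩
          rw [colm_ofCols, dif_pos a.2]
          exact huu a, hX', by
            intro u hu x
            have h1 : ∀ a : Fin M, ∃ z : ι × Fin k, x ∈ c0.X z.1 (colm 0 (colm a u)) ∧
                x ∈ cv z.1 z.2 (colm a u) := by
              intro a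
              obtain ⟨h2, h3⟩ := hmem u hu a
              obtain ⟨ν, hν⟩ := c0.hcov _ h2 x
              obtain ⟨j, hj⟩ := h3 ν x
              exact ⟨(ν, j), hν, hj⟩
            choose z hz1 hz2 using h1
            obtain ⟨a, b, hab, he⟩ := Fintype.exists_ne_map_eq_of_card_lt z (by
              rw [Fintype.card_fin]; omega)
            refine ⟨⟨(a, b, z a), hab⟩, ⟨hz2 a, ?_⟩, hz1 a, ?_⟩
            · have := hz2 b
              rw [← he] at this
              exact this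
            · have := hz1 b
              rw [← he] at this
              exact this, fun z σ => c0.hF _ σ⟩ : Cond I (NewPart M ι k)) z c0 z.1.2.2.1 := by
      refine ⟨le_refl _, fun u hu => ⟨colm 0 (colm z.1.1 u), (hmem u hu z.1.1).1,
        fun x hx => hx.2.1, fun σ => ⟨[], ?_, I.VE_nil _ _ _, fun x hx => ?_⟩⟩⟩
      · rw [List.append_nil]
      · rw [el_nil] at hx
        exact absurd hx (Set.notMem_empty x)
    exact h1.trans (hc0 _)
  · -- satisfaction
    obtain ⟨⟨a, b, ν, j⟩, hab⟩ := z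
    simp only at hab
    by_cases hd : Done q c0 ν
    · exact Or.inl hd
    by_cases hl : ∃ i, ¬ Dead c0 ν (i, j)
    · obtain ⟨i, hi⟩ := hl
      have hn : q.n (i, j) ≤ cnt (c0.F ν (i, j)) := by
        rcases dead_of_min hmin ν (i, j) with h | h
        · exact h
        · exact absurd h hi
      refine Or.inr (Or.inl ⟨(i, j), hn, l[(a : ℕ)]'(by rw [hl2]; exact a.2), ?_⟩)
      intro u hu E hE hel v hv
      obtain ⟨d, hd1, hd2⟩ := hv
      have hlab : l[(b : ℕ)]'(by rw [hl2]; exact b.2) ≠ l[(a : ℕ)]'(by rw [hl2]; exact a.2) := by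
        intro he
        have := (List.Nodup.getElem_inj_iff hl1).1 he
        exact hab (Fin.ext this.symm)
      have key : ∀ e : Fin M, (∀ x ∈ el E, x ∈ cv ν j (colm e u) ∧
          x ∈ c0.X ν (colm 0 (colm e u)) ∧ I.Rt c0.t x) →
          (l[(a : ℕ)]'(by rw [hl2]; exact a.2), !v) ∉ pa e := by
        intro e he hmem'
        refine hu e (Or.inr (Or.inr (Or.inr ⟨(ν, (i, j)), ⟨hd, hi⟩, E, hE, ?_,
          _, hmem', d, ?_, hd2⟩)))
        · intro b hb x hx
          exact he x ⟨b, hb, hx⟩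
        · simp only [Bool.not_not]
          exact hd1
      cases v with
      | true =>
        refine key b (fun x hx => ?_) ?_
        · obtain ⟨h1, h2⟩ := hel x hx
          exact ⟨h1.1.2, h1.2.2, h2⟩
        · refine List.mem_map.2 ⟨l[(a : ℕ)]'(by rw [hl2]; exact a.2), List.getElem_mem _, ?_⟩
          simp only [Bool.not_true, Prod.mk.injEq, true_and, decide_eq_false_iff_not]
          exact hlab.symm
      | false =>
        refine key a (fun x hx => ?_) ?_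
        · obtain ⟨h1, h2⟩ := hel x hx
          exact ⟨h1.1.1, h1.2.1, h2⟩
        · refine List.mem_map.2 ⟨l[(a : ℕ)]'(by rw [hl2]; exact a.2), List.getElem_mem _, ?_⟩
          simp
    · push Not at hl
      refine Or.inr (Or.inr ?_)
      intro u hu i b' hb' htb hx
      refine hu a (Or.inr (Or.inr (Or.inl ⟨(ν, (i, j)), hl i, b', hb', htb, ?_⟩)))
      intro x hxb
      obtain ⟨h1, h2⟩ := hx x hxb
      exact ⟨h1.1.1, h1.2.1, h2⟩

end Pool.Agent.KS6_47.PR
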