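import Pool.Agent.KS6_47.PR.R2

/-!
Separating functions, and the lemma on valuations.
-/

set_option autoImplicit false

namespace Pool.Agent.KS6_47.PR

open Encodable Pool.Agent.Helper446 Pool.Agent.Helper446.Defs Pool.Agent.Helper446.RE
  Pool.Agent.Helper446.Oracle Pool.Agent.R623.Dec

variable {α β γ : Type} [Primcodable α] [Primcodable β] [Primcodable γ]

/-- the join of two sets -/
def jn (X Z : Set ℕ) : Set ℕ := {n | (n % 2 = 0 ∧ n / 2 ∈ X) ∨ (n % 2 ≠ 0 ∧ n / 2 ∈ Z)}

theorem computable_half : Computable fun n : ℕ => n / 2 :=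
  (Primrec.nat_div.comp Primrec.id (Primrec.const 2)).to_comp

theorem computable_par : Computable fun n : ℕ => n % 2 :=
  (Primrec.nat_mod.comp Primrec.id (Primrec.const 2)).to_comp

theorem computable_dbl : Computable fun n : ℕ => 2 * n :=
  (Primrec.nat_mul.comp (Primrec.const 2) Primrec.id).to_comp

theorem le_jn_left (X Z : Set ℕ) : Le X (jn X Z) := by
  have h1 : DecIn (jn X Z) fun n : ℕ => 2 * n ∈ jn X Z := DecIn.mem computable_dbl
  refine h1.of_eq fun n => ?_
  unfold jn
  rw [Set.mem_ofPred_eq]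
  rw [show 2 * n % 2 = 0 by omega, show 2 * n / 2 = n by omega]
  simp

theorem le_jn_right (X Z : Set ℕ) : Le Z (jn X Z) := by
  have h1 : DecIn (jn X Z) fun n : ℕ => 2 * n + 1 ∈ jn X Z :=
    DecIn.mem (Computable.succ.comp computable_dbl)
  refine h1.of_eq fun n => ?_
  unfold jn
  rw [Set.mem_ofPred_eq]
  rw [show (2 * n + 1) % 2 = 1 by omega, show (2 * n + 1) / 2 = n by omega]
  simp

/-- **The use principle.** -/
theorem use_jn {X Z : Set ℕ} {P : α → Prop} (h : REIn (jn X Z) P) :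
    ∃ S : α → Info → Prop, REIn Z (fun x : α × Info => S x.1 x.2) ∧
      ∀ a, P a ↔ ∃ c, S a c ∧ Ok X c := by
  classical
  obtain ⟨R, hR, h1⟩ := h
  refine ⟨fun a d => ∃ c : Info, R a c ∧
    (∀ x ∈ c.1, (x % 2 = 0 ∧ x / 2 ∈ d.1) ∨ (x % 2 ≠ 0 ∧ x / 2 ∈ Z)) ∧
    (∀ x ∈ c.2, (x % 2 = 0 ∧ x / 2 ∈ d.2) ∨ (x % 2 ≠ 0 ∧ x / 2 ∉ Z)), ?_, fun a => ?_⟩
  · refine REIn.ex (S := fun (y : α × Info) (c : Info) => R y.1 c ∧
      (∀ x ∈ c.1, (x % 2 = 0 ∧ x / 2 ∈ y.2.1) ∨ (x % 2 ≠ 0 ∧ x / 2 ∈ Z)) ∧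
      (∀ x ∈ c.2, (x % 2 = 0 ∧ x / 2 ∈ y.2.2) ∨ (x % 2 ≠ 0 ∧ x / 2 ∉ Z))) ?_
    refine REIn.and (REIn.of_re (RE.comp hR (f := fun y : (α × Info) × Info => (y.1.1, y.2))
      (by fun_prop))) (REIn.and ?_ ?_)
    · refine REIn.all_mem (S := fun (y : (α × Info) × Info) (x : ℕ) =>
        (x % 2 = 0 ∧ x / 2 ∈ y.1.2.1) ∨ (x % 2 ≠ 0 ∧ x / 2 ∈ Z)) (l := fun y => y.2.1) ?_
        (by fun_prop)
      refine REIn.or (REIn.and (REIn.of_re ?_) (REIn.of_re ?_)) (REIn.and (REIn.of_re ?_) ?_)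
      · exact RE.eq (computable_par.comp (by fun_prop)) (by fun_prop)
      · exact RE.mem_list (computable_half.comp (by fun_prop)) (by fun_prop)
      · exact RE.ne (computable_par.comp (by fun_prop)) (by fun_prop)
      · exact REIn.mem (computable_half.comp (by fun_prop))
    · refine REIn.all_mem (S := fun (y : (α × Info) × Info) (x : ℕ) =>
        (x % 2 = 0 ∧ x / 2 ∈ y.1.2.2) ∨ (x % 2 ≠ 0 ∧ x / 2 ∉ Z)) (l := fun y => y.2.2) ?_
        (by fun_prop)
      refine REIn.or (REIn.and (REIn.of_re ?_) (REIn.of_re ?_)) (REIn.and (REIn.of_re ?_) ?_)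
      · exact RE.eq (computable_par.comp (by fun_prop)) (by fun_prop)
      · exact RE.mem_list (computable_half.comp (by fun_prop)) (by fun_prop)
      · exact RE.ne (computable_par.comp (by fun_prop)) (by fun_prop)
      · exact REIn.not_mem (computable_half.comp (by fun_prop))
  · rw [h1]
    constructor
    · rintro ⟨c, hc, hc1, hc2⟩
      refine ⟨((c.1.filter fun x => x % 2 = 0).map fun x => x / 2,
        (c.2.filter fun x => x % 2 = 0).map fun x => x / 2), ⟨c, hc, ?_, ?_⟩, ?_, ?_⟩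
      · intro x hx
        rcases hc1 x hx with h | h
        · exact Or.inl ⟨h.1, List.mem_map.2 ⟨x, List.mem_filter.2 ⟨hx, by simpa using h.1⟩, rfl⟩⟩
        · exact Or.inr h
      · intro x hx
        have h := hc2 x hx
        by_cases h0 : x % 2 = 0
        · exact Or.inl ⟨h0, List.mem_map.2 ⟨x, List.mem_filter.2 ⟨hx, by simpa using h0⟩, rfl⟩⟩
        · exact Or.inr ⟨h0, fun hz => h (Or.inr ⟨h0, hz⟩)⟩
      · intro x hx
        obtain ⟨y, hy, rfl⟩ := List.mem_map.1 hx
        obtain ⟨hy, h0⟩ := List.mem_filter.1 hy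
        have h0 : y % 2 = 0 := by simpa using h0
        rcases hc1 y hy with h | h
        · exact h.2
        · exact absurd h0 h.1
      · intro x hx hX
        obtain ⟨y, hy, rfl⟩ := List.mem_map.1 hx
        obtain ⟨hy, h0⟩ := List.mem_filter.1 hy
        have h0 : y % 2 = 0 := by simpa using h0
        exact hc2 y hy (Or.inl ⟨h0, hX⟩)
    · rintro ⟨d, ⟨c, hc, hc1, hc2⟩, hd1, hd2⟩
      refine ⟨c, hc, fun x hx => ?_, fun x hx hj => ?_⟩
      · rcases hc1 x hx with h | h
        · exact Or.inl ⟨h.1, hd1 _ h.2⟩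
        · exact Or.inr h
      · rcases hc2 x hx with h | h
        · rcases hj with hj | hj
          · exact hd2 _ h.2 hj.2
          · exact hj.1 h.1
        · rcases hj with hj | hj
          · exact h.1 hj.1
          · exact h.2 hj.2

theorem re_of_empty {P : α → Prop} (h : REIn ∅ P) : REPred P := by
  obtain ⟨R, hR, h1⟩ := h
  have h2 : REPred fun a => ∃ c : Info, R a c ∧ c.1 = [] := by
    refine RE.ex (p := fun a (c : Info) => R a c ∧ c.1 = []) ?_
    exact RE.and hR (RE.eq (by fun_prop) (by fun_prop))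
  refine h2.of_eq fun a => ?_
  rw [h1 a]
  constructor
  · rintro ⟨c, hc, h0⟩
    refine ⟨c, hc, fun x hx => ?_, fun x _ => by simp⟩
    rw [h0] at hx
    simp at hx
  · rintro ⟨c, hc, hok⟩
    refine ⟨c, hc, List.eq_nil_iff_forall_not_mem.2 fun x hx => ?_⟩
    exact hok.1 x hx

/-- relative uniformization -/
theorem uniformize [Inhabited β] {Z : Set ℕ} {S : α → β → Prop}
    (hS : REIn Z fun x : α × β => S x.1 x.2) (ht : ∀ a, ∃ b, S a b) :
    ∃ g : α → β, REIn Z (fun x : α × β => g x.1 = x.2) ∧ ∀ a, S a (g a) := by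
  classical
  obtain ⟨R, hR, h1⟩ := hS
  obtain ⟨q, hq, h2⟩ := RE.re_iff.1 hR
  let dd : ℕ → β × Info × ℕ := fun u => (decode (α := β × Info × ℕ) u).getD (default, ([], []), 0)
  have hdd : Computable dd := Primrec.option_getD.to_comp.comp (by fun_prop) (by fun_prop)
  let T : α → ℕ → Prop := fun a u => q ((a, (dd u).1), (dd u).2.1) (dd u).2.2 = true ∧
    (∀ x ∈ (dd u).2.1.1, x ∈ Z) ∧ ∀ x ∈ (dd u).2.1.2, x ∉ Z
  have hT : DecIn Z fun x : α × ℕ => T x.1 x.2 := by
    refine DecIn.and ?_ (DecIn.and ?_ ?_)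
    · refine DecIn.eq (f := fun x : α × ℕ => q ((x.1, (dd x.2).1), (dd x.2).2.1) (dd x.2).2.2)
        (g := fun _ => true) ?_ (by fun_prop)
      exact hq.comp (by fun_prop) (by fun_prop)
    · exact DecIn.all_mem (S := fun (_ : α × ℕ) x => x ∈ Z) (l := fun x => (dd x.2).2.1.1)
        (DecIn.mem (by fun_prop)) (by fun_prop)
    · exact DecIn.all_mem (S := fun (_ : α × ℕ) x => x ∉ Z) (l := fun x => (dd x.2).2.1.2)
        (DecIn.mem (by fun_prop)).not (by fun_prop)
  have hTe : ∀ a, ∃ u, T a u := by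
    intro a
    obtain ⟨b, hb⟩ := ht a
    obtain ⟨c, hc, hok⟩ := (h1 (a, b)).1 hb
    obtain ⟨m, hm⟩ := (h2 ((a, b), c)).1 hc
    refine ⟨encode (b, c, m), ?_⟩
    have : dd (encode (b, c, m)) = (b, c, m) := by
      simp only [dd, encodek, Option.getD_some]
    simp only [T, this]
    exact ⟨hm, hok.1, hok.2⟩
  have hTs : ∀ a u, T a u → S a (dd u).1 := by
    intro a u h
    exact (h1 (a, (dd u).1)).2 ⟨(dd u).2.1, (h2 _).2 ⟨_, h.1⟩, h.2.1, h.2.2⟩
  refine ⟨fun a => (dd (Nat.find (hTe a))).1, ?_, fun a => hTs a _ (Nat.find_spec (hTe a))⟩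
  have h3 : REIn Z fun x : α × β => ∃ u : ℕ, T x.1 u ∧ (∀ v < u, ¬ T x.1 v) ∧ (dd u).1 = x.2 := by
    refine REIn.ex (S := fun (x : α × β) (u : ℕ) => T x.1 u ∧ (∀ v < u, ¬ T x.1 v) ∧
      (dd u).1 = x.2) ?_
    refine REIn.and (hT.1.comp (f := fun y : (α × β) × ℕ => (y.1.1, y.2)) (by fun_prop))
      (REIn.and ?_ (REIn.of_re (RE.eq (by fun_prop) (by fun_prop))))
    exact REIn.all_lt (S := fun (y : (α × β) × ℕ) (v : ℕ) => ¬ T y.1.1 v)
      (hT.2.comp (f := fun y : ((α × β) × ℕ) × ℕ => (y.1.1.1, y.2)) (by fun_prop)) (by fun_prop)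
  refine h3.of_eq fun x => ?_
  constructor
  · rintro ⟨u, hu, hmin, he⟩
    have : Nat.find (hTe x.1) = u := (Nat.find_eq_iff (hTe x.1)).2 ⟨hu, fun n hn => hmin n hn⟩
    simp only [this]
    exact he
  · intro he
    exact ⟨_, Nat.find_spec (hTe x.1), fun v hv => Nat.find_min (hTe x.1) hv, he⟩

/-- the diagonal function takes the value `b` at `n` -/
def D (n : ℕ) (b : Bool) : Prop :=
  encode b ∈ Nat.Partrec.Code.eval (Denumerable.ofNat Nat.Partrec.Code n) n

theorem D_fun {n : ℕ} {b b' : Bool} (h : D n b) (h' : D n b') : b = b' :=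
  encode_injective (Part.mem_unique h h')

theorem re_D : REPred fun x : ℕ × Bool => D x.1 x.2 := by
  have h1 : REPred fun x : ℕ × Bool => ∃ k : ℕ,
      Nat.Partrec.Code.evaln k (Denumerable.ofNat Nat.Partrec.Code x.1) x.1 =
        some (encode x.2) := by
    refine RE.ex (p := fun (x : ℕ × Bool) (k : ℕ) =>
      Nat.Partrec.Code.evaln k (Denumerable.ofNat Nat.Partrec.Code x.1) x.1 =
        some (encode x.2)) ?_
    refine RE.eq ?_ (by fun_prop)
    have h2 : Computable fun x : (ℕ × Nat.Partrec.Code) × ℕ =>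
        (Nat.Partrec.Code.evaln x.1.1 x.1.2 x.2) := Nat.Partrec.Code.primrec_evaln.to_comp
    refine h2.comp (g := fun x : (ℕ × Bool) × ℕ =>
      ((x.2, Denumerable.ofNat Nat.Partrec.Code x.1.1), x.1.1)) ?_
    have h3 : Computable fun n : ℕ => Denumerable.ofNat Nat.Partrec.Code n :=
      Computable.ofNat Nat.Partrec.Code
    exact (Computable.snd.pair (h3.comp (by fun_prop))).pair (by fun_prop)
  refine h1.of_eq fun x => ?_
  constructor
  · rintro ⟨k, hk⟩
    exact Nat.Partrec.Code.evaln_complete.2 ⟨k, hk⟩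
  · intro h
    exact Nat.Partrec.Code.evaln_complete.1 h

/-- `Z` computes a function avoiding the diagonal function -/
def Sep (Z : Set ℕ) : Prop :=
  ∃ g : ℕ → Bool, REIn Z (fun x : ℕ × Bool => g x.1 = x.2) ∧ ∀ n b, D n b → g n ≠ b

theorem Sep.mono {Z Z' : Set ℕ} (h : Le Z Z') (hs : Sep Z) : Sep Z' := by
  obtain ⟨g, h1, h2⟩ := hs
  exact ⟨g, REIn.trans h h1, h2⟩

theorem not_sep_empty : ¬ Sep ∅ := by
  rintro ⟨g, h1, h2⟩
  have hg : Computable g := RE.computable_of_graph (re_of_empty h1)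
  have h3 : Nat.Partrec fun n => Part.some (encode (g n)) := by
    have := hg
    have h4 : Computable fun n => encode (g n) := Computable.encode.comp hg
    exact Partrec.nat_iff.1 h4
  obtain ⟨c, hc⟩ := Nat.Partrec.Code.exists_code.1 h3
  have h5 : D (encode c) (g (encode c)) := by
    unfold D
    rw [Denumerable.ofNat_encode, hc]
    exact Part.mem_some _
  exact h2 _ _ h5 rfl

/-- the valuation `p` is correct: it is defined only where the diagonal function is, and takes
the other value -/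
def Correct (p : List (ℕ × Bool)) : Prop := ∀ x ∈ p, D x.1 (!x.2)

theorem val_aux {Z : Set ℕ} (m : ℕ) : ∀ W : List (ℕ × Bool) → Prop, REIn Z W →
    (∀ p, W p → ¬ Correct p) →
    (∀ l : List ℕ, l.Nodup → l.length = m → ∃ p : List (ℕ × Bool), p.map Prod.fst = l ∧ W p) →
    Sep Z := by
  classical
  induction m with
  | zero =>
    intro W _ hc hl
    obtain ⟨p, hp, hW⟩ := hl [] List.nodup_nil rfl
    have hp : p = [] := List.map_eq_nil_iff.1 hp
    subst hp
    exact absurd (fun x hx => by simp at hx) (hc _ hW)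
  | succ m ih =>
    intro W hW hc hl
    have hmap : Computable fun q : List (ℕ × Bool) => q.map Prod.fst :=
      (Primrec.list_map Primrec.id (Primrec.fst.comp Primrec.snd).to₂).to_comp
    let W' : List (ℕ × Bool) → Prop := fun q => ∃ x : ℕ × Bool, x.1 ∉ q.map Prod.fst ∧
      W (x :: q) ∧ D x.1 (!x.2)
    have hnot : Computable fun b : Bool => !b := Primrec.not.to_comp
    have hW' : REIn Z W' := by
      refine REIn.ex (S := fun (q : List (ℕ × Bool)) (x : ℕ × Bool) => x.1 ∉ q.map Prod.fst ∧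
        W (x :: q) ∧ D x.1 (!x.2)) ?_
      refine REIn.and (REIn.of_re ?_) (REIn.and ?_ (REIn.of_re ?_))
      · exact RE.not_mem_list (by fun_prop) (hmap.comp (by fun_prop))
      · exact hW.comp (f := fun x : List (ℕ × Bool) × (ℕ × Bool) => x.2 :: x.1)
          (Computable.list_cons.comp Computable.snd Computable.fst)
      · exact RE.comp re_D (f := fun x : List (ℕ × Bool) × (ℕ × Bool) => (x.2.1, !x.2.2))
          (Computable.pair (by fun_prop) (hnot.comp (by fun_prop)))
    by_cases h : ∀ l : List ℕ, l.Nodup → l.length = m →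
        ∃ q : List (ℕ × Bool), q.map Prod.fst = l ∧ W' q
    · refine ih W' hW' ?_ h
      rintro q ⟨x, _, h2, h3⟩ hq
      refine hc _ h2 ?_
      intro y hy
      rcases List.mem_cons.1 hy with rfl | hy
      · exact h3
      · exact hq y hy
    · push Not at h
      obtain ⟨l, hl1, hl2, hl3⟩ := h
      have hf : ∀ n : ℕ, ∃ b : Bool, ¬ D n b := by
        intro n
        by_cases h : D n true
        · exact ⟨false, fun h' => by have := D_fun h h'; simp at this⟩
        · exact ⟨true, h⟩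
      choose f hf using hf
      let r : ℕ → Bool → Prop := fun n b => (n, b) ∈ l.map (fun n => (n, f n)) ∨
        (n ∉ l ∧ ∃ q : List (ℕ × Bool), q.map Prod.fst = l ∧ W ((n, !b) :: q))
      have hr : REIn Z fun x : ℕ × Bool => r x.1 x.2 := by
        refine REIn.or (REIn.of_re (RE.mem_list (by fun_prop) (Computable.const _)))
          (REIn.and (REIn.of_re (RE.not_mem_list (by fun_prop) (Computable.const _))) ?_)
        refine REIn.ex (S := fun (x : ℕ × Bool) (q : List (ℕ × Bool)) => q.map Prod.fst = l ∧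
          W ((x.1, !x.2) :: q)) ?_
        refine REIn.and (REIn.of_re (RE.eq (hmap.comp (by fun_prop)) (Computable.const _))) ?_
        refine hW.comp (f := fun x : (ℕ × Bool) × List (ℕ × Bool) => (x.1.1, !x.1.2) :: x.2) ?_
        refine Computable.list_cons.comp (Computable.pair (by fun_prop)
          (hnot.comp (by fun_prop))) (by fun_prop)
      have hrt : ∀ n, ∃ b, r n b := by
        intro n
        by_cases hn : n ∈ l
        · exact ⟨f n, Or.inl (List.mem_map.2 ⟨n, hn, rfl⟩)⟩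
        · obtain ⟨p, hp, hWp⟩ := hl (n :: l) (List.nodup_cons.2 ⟨hn, hl1⟩) (by simp [hl2])
          cases p with
          | nil => simp at hp
          | cons x q =>
            simp only [List.map_cons, List.cons.injEq] at hp
            refine ⟨!x.2, Or.inr ⟨hn, q, hp.2, ?_⟩⟩
            rw [Bool.not_not, ← hp.1]
            exact hWp
      obtain ⟨g, hg1, hg2⟩ := uniformize hr hrt
      refine ⟨g, hg1, fun n b hD he => ?_⟩
      subst he
      rcases hg2 n with h | ⟨h1, q, h2, h3⟩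
      · obtain ⟨n', _, h'⟩ := List.mem_map.1 h
        simp only [Prod.mk.injEq] at h'
        obtain ⟨rfl, h'⟩ := h'
        rw [← h'] at hD
        exact hf _ hD
      · refine hl3 q h2 ⟨(n, !(g n)), by rw [h2]; exact h1, h3, ?_⟩
        rw [Bool.not_not]
        exact hD

/-- **The valuation lemma.** -/
theorem val_lemma {Z : Set ℕ} (hZ : ¬ Sep Z) {W : List (ℕ × Bool) → Prop} (hW : REIn Z W)
    (hc : ∀ p, W p → ¬ Correct p) (m : ℕ) : ∃ l : List ℕ, l.Nodup ∧ l.length = m ∧
      ∀ p : List (ℕ × Bool), p.map Prod.fst = l → ¬ W p := by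
  by_contra h
  push Not at h
  exact hZ (val_aux m W hW hc h)

end Pool.Agent.KS6_47.PR
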